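import Pool.Agent.Q190.EM.TRU

/-!
# Project EM (helper86), job EM-COS: the covariance inequality
-/

set_option autoImplicit false

namespace Pool.Agent.Q190.EM

open MeasureTheory Set Filter Topology
open scoped ENNReal InnerProductSpace ContDiff
open Pool.Agent.Q86.FIB
open Pool.Agent.Q86.EM

theorem exists_zeta {b η : ℝ} (hb : 0 ≤ b) (hη : 0 < η) : ∃ (ζ : ℝ → ℝ) (M : ℝ), ContDiff ℝ 1 ζ ∧
    (∀ s, 0 ≤ ζ s) ∧ (∀ s, ζ s ≤ 1) ∧ (∀ s, 0 ≤ deriv ζ s) ∧ (∀ s, 0 ≤ s → s * deriv ζ s ≤ M) ∧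
    (∀ s, s ≤ b ^ 2 → ζ s = 0) ∧ ∀ s, (b + η) ^ 2 ≤ s → ζ s = 1 := by
  have hd : 0 < (b + η) ^ 2 - b ^ 2 := by nlinarith
  set d := (b + η) ^ 2 - b ^ 2 with hdd
  have hζ : ContDiff ℝ 1 fun s : ℝ => Real.smoothTransition ((s - b ^ 2) / d) :=
    (Real.smoothTransition.contDiff (n := 1)).comp ((contDiff_id.sub contDiff_const).div_const d)
  have h1 : ∀ s, (b + η) ^ 2 ≤ s → Real.smoothTransition ((s - b ^ 2) / d) = 1 := fun s hs => by
    apply Real.smoothTransition.one_of_one_le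
    rw [le_div_iff₀ hd]
    linarith
  have hmono : Monotone fun s : ℝ => Real.smoothTransition ((s - b ^ 2) / d) := by
    intro s t hst
    apply Real.smoothTransition.monotone
    exact div_le_div_of_nonneg_right (by linarith) hd.le
  have hdc : Continuous fun s => s * deriv (fun s : ℝ => Real.smoothTransition ((s - b ^ 2) / d)) s :=
    continuous_id.mul (hζ.continuous_deriv le_rfl)
  obtain ⟨M, hM⟩ := (isCompact_Icc (a := (0 : ℝ)) (b := (b + η) ^ 2)).exists_bound_of_continuousOn hdc.continuousOn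
  have hM0 : 0 ≤ M := (norm_nonneg _).trans (hM 0 ⟨le_rfl, sq_nonneg _⟩)
  refine ⟨_, M, hζ, fun s => Real.smoothTransition.nonneg _, fun s => Real.smoothTransition.le_one _,
    fun s => hmono.deriv_nonneg, fun s hs => ?_, fun s hs => ?_, h1⟩
  · by_cases hs2 : s ≤ (b + η) ^ 2
    · exact (le_abs_self _).trans (hM s ⟨hs, hs2⟩)
    · push Not at hs2
      have h2 : (fun s : ℝ => Real.smoothTransition ((s - b ^ 2) / d)) =ᶠ[𝓝 s] fun _ => 1 := by
        filter_upwards [lt_mem_nhds hs2] with t ht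
        exact h1 t (le_of_lt ht)
      rw [h2.deriv_eq, deriv_const, mul_zero]
      exact hM0
  · apply Real.smoothTransition.zero_of_nonpos
    exact div_nonpos_of_nonpos_of_nonneg (by linarith) hd.le

section

variable {κ : Type} [Fintype κ]

theorem int_gr {U : Eu κ → ℝ} (hU : ContDiff ℝ ∞ U)
    (hI : ∀ m : ℕ, Integrable fun x => (1 + ‖x‖) ^ m * Real.exp (-U x)) {f : Eu κ → ℝ} (hf : Continuous f)
    {C : ℝ} {m : ℕ} (hb : ∀ x, |f x| ≤ C * (1 + ‖x‖) ^ m) : Integrable fun x => f x * Real.exp (-U x) := by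
  have hw : Continuous (fun x => Real.exp (-U x)) := (hU.neg.exp).continuous
  refine ((hI m).const_mul C).mono' (hf.mul hw).aestronglyMeasurable (Eventually.of_forall fun x => ?_)
  rw [Real.norm_eq_abs, abs_mul, abs_of_pos (Real.exp_pos _), ← mul_assoc]
  exact mul_le_mul_of_nonneg_right (hb x) (Real.exp_nonneg _)

/-- the final algebra -/
theorem lim_arg {X G b c1 : ℝ} (h : ∀ η : ℝ, 0 < η → ∃ c2 : ℝ, ∀ ε : ℝ, 0 < ε → ε ≤ 1 →
    X ≤ c1 * Real.sqrt ε + (b + η) * G + c2 * Real.sqrt ε) : X ≤ b * G := by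
  have h1 : ∀ η : ℝ, 0 < η → X ≤ (b + η) * G := by
    intro η hη
    obtain ⟨c2, hc2⟩ := h η hη
    have hc : Tendsto (fun ε : ℝ => c1 * Real.sqrt ε + (b + η) * G + c2 * Real.sqrt ε) (𝓝[>] 0)
        (𝓝 ((b + η) * G)) := by
      have h2 : Continuous (fun ε : ℝ => c1 * Real.sqrt ε + (b + η) * G + c2 * Real.sqrt ε) := by fun_prop
      have h3 := (h2.tendsto 0).mono_left (nhdsWithin_le_nhds (s := Ioi (0 : ℝ)))
      simpa using h3
    refine ge_of_tendsto hc ?_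
    have e1 : ∀ᶠ ε : ℝ in 𝓝[>] 0, ε ≤ 1 := by
      have := (continuous_id.tendsto (0 : ℝ)).mono_left (nhdsWithin_le_nhds (s := Ioi (0 : ℝ)))
      exact (this.eventually_lt_const (show (0 : ℝ) < 1 from one_pos)).mono fun t h => h.le
    filter_upwards [e1, self_mem_nhdsWithin] with ε h3 h4
    exact hc2 ε h4 h3
  have hc : Tendsto (fun η : ℝ => (b + η) * G) (𝓝[>] 0) (𝓝 (b * G)) := by
    have h2 : Continuous (fun η : ℝ => (b + η) * G) := by fun_prop
    have h3 := (h2.tendsto 0).mono_left (nhdsWithin_le_nhds (s := Ioi (0 : ℝ)))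
    simpa using h3
  refine ge_of_tendsto hc ?_
  filter_upwards [self_mem_nhdsWithin] with η h3
  exact h1 η h3

end

theorem cos (hS : S_SCI) (hT : S_TRU) : S_COS := by
  classical
  intro κ _ U a ha hU hSC u B hu huB hdB w
  obtain ⟨hI, hPo⟩ := hS κ U a ha hU hSC
  have hw : Continuous (fun x => Real.exp (-U x)) := (hU.neg.exp).continuous
  have hB0 : 0 ≤ B := (abs_nonneg _).trans (huB 0)
  have iZ : Integrable fun x => Real.exp (-U x) := by
    have := hI 0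
    simpa using this
  set Z := ∫ x, Real.exp (-U x) with hZd
  have hZ : 0 < Z := integral_exp_pos iZ
  have hinc : Continuous fun x : Eu κ => ⟪w, x⟫_ℝ := (contDiff_const.inner ℝ (contDiff_id (n := 0))).continuous
  have hinb : ∀ x : Eu κ, |⟪w, x⟫_ℝ| ≤ ‖w‖ * (1 + ‖x‖) ^ 1 := fun x => by
    refine (abs_real_inner_le_norm w x).trans (mul_le_mul_of_nonneg_left ?_ (norm_nonneg _))
    rw [pow_one]
    linarith
  have iw : Integrable fun x => ⟪w, x⟫_ℝ * Real.exp (-U x) := int_gr hU hI hinc hinb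
  have iu : Integrable fun x => u x * Real.exp (-U x) :=
    int_gr hU hI hu.continuous (C := B) (m := 0) fun x => by simpa using huB x
  have iuw : Integrable fun x => u x * ⟪w, x⟫_ℝ * Real.exp (-U x) :=
    int_gr hU hI (hu.continuous.mul hinc) (C := B * ‖w‖) (m := 1) fun x => by
      rw [abs_mul, mul_assoc]
      exact mul_le_mul (huB x) (hinb x) (abs_nonneg _) hB0
  obtain ⟨c, hc⟩ : ∃ c : ℝ, c = (∫ x, ⟪w, x⟫_ℝ * Real.exp (-U x)) / Z := ⟨_, rfl⟩
  have hcZ : ∫ x, ⟪w, x⟫_ℝ * Real.exp (-U x) = c * Z := by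
    rw [hc, div_mul_cancel₀ _ hZ.ne']
  obtain ⟨R, hR⟩ : ∃ R : Eu κ → ℝ, R = fun x => ⟪w, x⟫_ℝ - c := ⟨_, rfl⟩
  have hRx : ∀ x, R x = ⟪w, x⟫_ℝ - c := fun x => by rw [hR]
  have hRc : Continuous R := by
    rw [hR]
    exact hinc.sub continuous_const
  have hRb : ∀ x, |R x| ≤ (‖w‖ + |c|) * (1 + ‖x‖) ^ 1 := fun x => by
    rw [hRx]
    refine (abs_sub _ _).trans ?_
    have h1 := hinb x
    have h2 : |c| ≤ |c| * (1 + ‖x‖) ^ 1 := by
      rw [pow_one]
      nlinarith [abs_nonneg c, norm_nonneg x]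
    rw [add_mul]
    exact add_le_add h1 h2
  have iR : Integrable fun x => R x * Real.exp (-U x) := int_gr hU hI hRc hRb
  have hR0 : ∫ x, R x * Real.exp (-U x) = 0 := by
    have e1 : ∀ x, R x * Real.exp (-U x) = ⟪w, x⟫_ℝ * Real.exp (-U x) - c * Real.exp (-U x) := fun x => by
      rw [hRx]
      ring
    simp_rw [e1]
    rw [integral_sub iw (iZ.const_mul c), integral_const_mul, hcZ, ← hZd, sub_self]
  have iR2 : Integrable fun x => R x ^ 2 * Real.exp (-U x) :=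
    int_gr hU hI (hRc.pow 2) (C := (‖w‖ + |c|) ^ 2) (m := 2) fun x => by
      rw [abs_pow]
      calc |R x| ^ 2 ≤ ((‖w‖ + |c|) * (1 + ‖x‖) ^ 1) ^ 2 := pow_le_pow_left₀ (abs_nonneg _) (hRb x) 2
        _ = _ := by ring
  have iuR : Integrable fun x => u x * R x * Real.exp (-U x) :=
    int_gr hU hI (hu.continuous.mul hRc) (C := B * (‖w‖ + |c|)) (m := 1) fun x => by
      rw [abs_mul, mul_assoc]
      exact mul_le_mul (huB x) (hRb x) (abs_nonneg _) hB0
  set V := ∫ x, R x ^ 2 * Real.exp (-U x) with hV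
  have hV0 : 0 ≤ V := integral_nonneg fun x => mul_nonneg (sq_nonneg _) (Real.exp_nonneg _)
  have hgc : Continuous fun x => ‖fderiv ℝ u x‖ := (hu.continuous_fderiv one_ne_zero).norm
  have iG : Integrable fun x => ‖fderiv ℝ u x‖ * Real.exp (-U x) :=
    int_gr hU hI hgc (C := B) (m := 0) fun x => by
      rw [abs_of_nonneg (norm_nonneg _)]
      simpa using hdB x
  set G := ∫ x, ‖fderiv ℝ u x‖ * Real.exp (-U x) with hG
  -- reduction
  have hred : (∫ x, u x * ⟪w, x⟫_ℝ * Real.exp (-U x)) * Z -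
      (∫ x, u x * Real.exp (-U x)) * ∫ x, ⟪w, x⟫_ℝ * Real.exp (-U x) = Z * ∫ x, u x * R x * Real.exp (-U x) := by
    have e1 : ∀ x, u x * R x * Real.exp (-U x) = u x * ⟪w, x⟫_ℝ * Real.exp (-U x) - c * (u x * Real.exp (-U x)) :=
      fun x => by
        rw [hRx]
        ring
    simp_rw [e1]
    rw [integral_sub iuw (iu.const_mul c), integral_const_mul, hcZ]
    ring
  rw [hred, abs_mul, abs_of_pos hZ]
  have hmain : |∫ x, u x * R x * Real.exp (-U x)| ≤ (a⁻¹ * ‖w‖) * G := by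
    have hsq : ∀ (f g : Eu κ → ℝ), Continuous f → Continuous g →
        Integrable (fun x => f x ^ 2 * Real.exp (-U x)) → Integrable (fun x => g x ^ 2 * Real.exp (-U x)) →
        Integrable (fun x => f x * g x * Real.exp (-U x)) →
        |∫ x, f x * g x * Real.exp (-U x)| ≤ Real.sqrt (∫ x, f x ^ 2 * Real.exp (-U x)) *
          Real.sqrt (∫ x, g x ^ 2 * Real.exp (-U x)) := by
      intro f g hf hg i1 i2 i3
      obtain ⟨s, hsd⟩ : ∃ s : Eu κ → ℝ, s = fun x => Real.exp (-(1 / 2 * U x)) := ⟨_, rfl⟩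
      have hss : ∀ x, Real.exp (-U x) = s x ^ 2 := by
        intro x
        rw [hsd]
        show Real.exp (-U x) = Real.exp (-(1 / 2 * U x)) ^ 2
        rw [← Real.exp_nat_mul]
        congr 1
        push_cast
        ring
      have e0 : ∀ (g : Eu κ → ℝ) (x : Eu κ), g x ^ 2 * Real.exp (-U x) = (g x * s x) ^ 2 := fun g x => by
        rw [hss]
        ring
      have e1 : ∀ x, f x * g x * Real.exp (-U x) = (f x * s x) * (g x * s x) := fun x => by
        rw [hss]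
        ring
      have j1 : Integrable fun x => (f x * s x) ^ 2 := by
        have := i1
        simp_rw [e0 f] at this
        exact this
      have j2 : Integrable fun x => (g x * s x) ^ 2 := by
        have := i2
        simp_rw [e0 g] at this
        exact this
      have j3 : Integrable fun x => (f x * s x) * (g x * s x) := by
        have := i3
        simp_rw [e1] at this
        exact this
      have e2 := cs_abs j1 j2 j3
      simp_rw [← e0 f, ← e0 g, ← e1] at e2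
      exact e2
    -- the hypothesis of the density lemma
    have hyp : ∀ φ : Eu κ → ℝ, ContDiff ℝ ∞ φ → HasCompactSupport φ →
        (∫ x, φ x * R x * Real.exp (-U x)) ^ 2 ≤
          (a⁻¹ * V) * ∫ x, (∑ i, (pd (bs κ i) φ x) ^ 2) * Real.exp (-U x) := by
      intro φ hφ hφs
      have hφc := hφ.continuous
      have iφ : Integrable fun x => φ x * Real.exp (-U x) := cc_int volume (hφc.mul hw) hφs.mul_right
      have iφ2 : Integrable fun x => φ x ^ 2 * Real.exp (-U x) := by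
        simp_rw [pow_two]
        exact cc_int volume ((hφc.mul hφc).mul hw) hφs.mul_right.mul_right
      have iφR : Integrable fun x => φ x * R x * Real.exp (-U x) :=
        cc_int volume ((hφc.mul hRc).mul hw) hφs.mul_right.mul_right
      obtain ⟨t, ht⟩ : ∃ t : ℝ, t = (∫ x, φ x * Real.exp (-U x)) / Z := ⟨_, rfl⟩
      have htZ : ∫ x, φ x * Real.exp (-U x) = t * Z := by rw [ht, div_mul_cancel₀ _ hZ.ne']
      have e1 : ∀ x, (φ x - t) * R x * Real.exp (-U x) = φ x * R x * Real.exp (-U x) - t * (R x * Real.exp (-U x)) :=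
        fun x => by ring
      have i1 : Integrable fun x => (φ x - t) * R x * Real.exp (-U x) := by
        simp_rw [e1]
        exact iφR.sub (iR.const_mul t)
      have e2 : ∫ x, (φ x - t) * R x * Real.exp (-U x) = ∫ x, φ x * R x * Real.exp (-U x) := by
        simp_rw [e1]
        rw [integral_sub iφR (iR.const_mul t), integral_const_mul, hR0, mul_zero, sub_zero]
      have e3 : ∀ x, (φ x - t) ^ 2 * Real.exp (-U x) = (φ x ^ 2 * Real.exp (-U x) -
          (2 * t) * (φ x * Real.exp (-U x))) + t ^ 2 * Real.exp (-U x) := fun x => by ring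
      have i2a : Integrable fun x => φ x ^ 2 * Real.exp (-U x) - (2 * t) * (φ x * Real.exp (-U x)) :=
        iφ2.sub (iφ.const_mul _)
      have i2 : Integrable fun x => (φ x - t) ^ 2 * Real.exp (-U x) := by
        simp_rw [e3]
        exact i2a.add (iZ.const_mul _)
      have e4 : Z * ∫ x, (φ x - t) ^ 2 * Real.exp (-U x) =
          Z * (∫ x, φ x ^ 2 * Real.exp (-U x)) - (∫ x, φ x * Real.exp (-U x)) ^ 2 := by
        simp_rw [e3]
        rw [integral_add i2a (iZ.const_mul _), integral_sub iφ2 (iφ.const_mul _), integral_const_mul,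
          integral_const_mul, ← hZd, htZ]
        ring
      have e5 := hPo φ (sm1 hφ) hφs
      rw [← e4] at e5
      have e6 : ∫ x, (φ x - t) ^ 2 * Real.exp (-U x) ≤ a⁻¹ * ∫ x, ‖fderiv ℝ φ x‖ ^ 2 * Real.exp (-U x) := by
        refine le_of_mul_le_mul_left ?_ hZ
        linarith
      have e7 := hsq (fun x => φ x - t) R (hφc.sub continuous_const) hRc i2 iR2 i1
      rw [e2] at e7
      have e8 : (∫ x, φ x * R x * Real.exp (-U x)) ^ 2 ≤
          (∫ x, (φ x - t) ^ 2 * Real.exp (-U x)) * V := by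
        rw [← sq_abs]
        have h0 : 0 ≤ ∫ x, (φ x - t) ^ 2 * Real.exp (-U x) :=
          integral_nonneg fun x => mul_nonneg (sq_nonneg _) (Real.exp_nonneg _)
        calc |∫ x, φ x * R x * Real.exp (-U x)| ^ 2 ≤ (Real.sqrt (∫ x, (φ x - t) ^ 2 * Real.exp (-U x)) *
              Real.sqrt V) ^ 2 := pow_le_pow_left₀ (abs_nonneg _) e7 2
          _ = _ := by rw [mul_pow, Real.sq_sqrt h0, Real.sq_sqrt hV0]
      have e9 : ∀ x, ‖fderiv ℝ φ x‖ ^ 2 = ∑ i, (pd (bs κ i) φ x) ^ 2 := fun x => norm_fd _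
      simp_rw [e9] at e6
      calc (∫ x, φ x * R x * Real.exp (-U x)) ^ 2 ≤ (∫ x, (φ x - t) ^ 2 * Real.exp (-U x)) * V := e8
        _ ≤ (a⁻¹ * ∫ x, (∑ i, (pd (bs κ i) φ x) ^ 2) * Real.exp (-U x)) * V := mul_le_mul_of_nonneg_right e6 hV0
        _ = _ := by ring
    have iu2 : Integrable fun x => u x ^ 2 * Real.exp (-U x) :=
      int_gr hU hI (hu.continuous.pow 2) (C := B ^ 2) (m := 0) fun x => by
        rw [abs_pow, pow_zero, mul_one]
        exact pow_le_pow_left₀ (abs_nonneg _) (huB x) 2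
    refine lim_arg (c1 := Real.sqrt (∫ x, u x ^ 2 * Real.exp (-U x))) fun η hη => ?_
    have hb0 : 0 ≤ a⁻¹ * ‖w‖ := by positivity
    obtain ⟨ζ, M, hζ, hζ0, hζ1, hζd, hζM, hζz, hζo⟩ := exists_zeta hb0 hη
    refine ⟨B / (a * η) * ((1 + 2 * M) * Real.sqrt (2 + 2 * V)), fun ε hε hε1 => ?_⟩
    obtain ⟨Φ, hΦ, hs, hΦε⟩ := density volume (bs κ) hU hRc iR2 (mul_nonneg (inv_nonneg.2 ha.le) hV0) hyp hε
    have hM0 : 0 ≤ M := by
      have := hζM 0 le_rfl
      rwa [zero_mul] at this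
    have hLs := Lop_smooth (bs κ) hU hΦ
    have hLc := hLs.continuous
    have hLsup : HasCompactSupport (Lop (bs κ) U Φ) := Lop_supp (bs κ) hs
    have iL2 : Integrable fun x => Lop (bs κ) U Φ x ^ 2 * Real.exp (-U x) := by
      simp_rw [pow_two]
      exact cc_int volume ((hLc.mul hLc).mul hw) hLsup.mul_right.mul_right
    have iRL : Integrable fun x => R x * Lop (bs κ) U Φ x * Real.exp (-U x) :=
      cc_int volume ((hRc.mul hLc).mul hw) hLsup.mul_left.mul_right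
    have e1 : ∀ x, (R x + Lop (bs κ) U Φ x) ^ 2 * Real.exp (-U x) = (R x ^ 2 * Real.exp (-U x) +
        2 * (R x * Lop (bs κ) U Φ x * Real.exp (-U x))) + Lop (bs κ) U Φ x ^ 2 * Real.exp (-U x) := fun x => by ring
    have ir2 : Integrable fun x => (R x + Lop (bs κ) U Φ x) ^ 2 * Real.exp (-U x) := by
      simp_rw [e1]
      exact (iR2.add (iRL.const_mul 2)).add iL2
    have hL2 : ∫ x, Lop (bs κ) U Φ x ^ 2 * Real.exp (-U x) ≤ 2 + 2 * V := by
      have h1 : ∫ x, Lop (bs κ) U Φ x ^ 2 * Real.exp (-U x) ≤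
          ∫ x, (2 * ((R x + Lop (bs κ) U Φ x) ^ 2 * Real.exp (-U x)) + 2 * (R x ^ 2 * Real.exp (-U x))) := by
        refine integral_mono iL2 ((ir2.const_mul 2).add (iR2.const_mul 2)) fun x => ?_
        show Lop (bs κ) U Φ x ^ 2 * Real.exp (-U x) ≤
          2 * ((R x + Lop (bs κ) U Φ x) ^ 2 * Real.exp (-U x)) + 2 * (R x ^ 2 * Real.exp (-U x))
        have h2 : Lop (bs κ) U Φ x ^ 2 ≤ 2 * (R x + Lop (bs κ) U Φ x) ^ 2 + 2 * R x ^ 2 := by
          nlinarith [sq_nonneg (2 * R x + Lop (bs κ) U Φ x)]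
        have h3 := mul_le_mul_of_nonneg_right h2 (Real.exp_nonneg (-U x))
        linarith
      rw [integral_add (ir2.const_mul 2) (iR2.const_mul 2), integral_const_mul, integral_const_mul, ← hV] at h1
      linarith
    -- the truncation estimate
    have htr := hT κ U a ha hU hSC ζ M hζ hζ0 hζ1 hζd hζM Φ w c hΦ hs (by
      simp_rw [← hRx]
      exact ir2)
    simp_rw [← hRx] at htr
    have hgΦc : Continuous fun x => ‖fderiv ℝ Φ x‖ := ((sm1 hΦ).continuous_fderiv one_ne_zero).norm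
    have hgΦs : HasCompactSupport fun x => ‖fderiv ℝ Φ x‖ := (hs.fderiv (𝕜 := ℝ)).norm
    have hzc : Continuous fun x => ζ (‖fderiv ℝ Φ x‖ ^ 2) := hζ.continuous.comp (hgΦc.pow 2)
    have i1 : Integrable fun x => ζ (‖fderiv ℝ Φ x‖ ^ 2) * ‖fderiv ℝ Φ x‖ ^ 2 * Real.exp (-U x) := by
      have h1 : ∀ x, ζ (‖fderiv ℝ Φ x‖ ^ 2) * ‖fderiv ℝ Φ x‖ ^ 2 * Real.exp (-U x) =
        ζ (‖fderiv ℝ Φ x‖ ^ 2) * ‖fderiv ℝ Φ x‖ * ‖fderiv ℝ Φ x‖ * Real.exp (-U x) := fun x => by ring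
      simp_rw [h1]
      exact cc_int volume (((hzc.mul hgΦc).mul hgΦc).mul hw) hgΦs.mul_left.mul_right
    have i2 : Integrable fun x => ζ (‖fderiv ℝ Φ x‖ ^ 2) * ‖fderiv ℝ Φ x‖ * Real.exp (-U x) :=
      cc_int volume ((hzc.mul hgΦc).mul hw) hgΦs.mul_left.mul_right
    have hsr : Real.sqrt (∫ x, (R x + Lop (bs κ) U Φ x) ^ 2 * Real.exp (-U x)) ≤ Real.sqrt ε :=
      Real.sqrt_le_sqrt hΦε.le
    have hsL : Real.sqrt (∫ x, Lop (bs κ) U Φ x ^ 2 * Real.exp (-U x)) ≤ Real.sqrt (2 + 2 * V) :=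
      Real.sqrt_le_sqrt hL2
    -- integration by parts
    have hibp := ibpL volume (bs κ) (sm1 hU) (sm2 hΦ) hu (Or.inl hs)
    have huc := hu.continuous
    have iuL : Integrable fun x => u x * Lop (bs κ) U Φ x * Real.exp (-U x) :=
      cc_int volume ((huc.mul hLc).mul hw) hLsup.mul_left.mul_right
    have e2 : ∀ x, u x * (R x + Lop (bs κ) U Φ x) * Real.exp (-U x) = u x * R x * Real.exp (-U x) +
        u x * Lop (bs κ) U Φ x * Real.exp (-U x) := fun x => by ring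
    have iur : Integrable fun x => u x * (R x + Lop (bs κ) U Φ x) * Real.exp (-U x) := by
      simp_rw [e2]
      exact iuR.add iuL
    have e3 : ∫ x, u x * R x * Real.exp (-U x) = (∫ x, u x * (R x + Lop (bs κ) U Φ x) * Real.exp (-U x)) +
        ∫ x, (∑ i, pd (bs κ i) u x * pd (bs κ i) Φ x) * Real.exp (-U x) := by
      simp_rw [e2]
      rw [integral_add iuR iuL, hibp]
      ring
    have h1 := hsq u (fun x => R x + Lop (bs κ) U Φ x) huc (hRc.add hLc) iu2 ir2 iur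
    have i3 : Integrable fun x => (∑ i, pd (bs κ i) u x * pd (bs κ i) Φ x) * Real.exp (-U x) :=
      cc_int volume ((continuous_finsetSum _ fun i _ => (pd_cont hu _).mul (pd_smooth hΦ _).continuous).mul hw)
        (HasCompactSupport.mul_right (cs_sum _ fun i _ => (pd_supp hs _).mul_left))
    have hpt : ∀ x, |∑ i, pd (bs κ i) u x * pd (bs κ i) Φ x| ≤ (a⁻¹ * ‖w‖ + η) * ‖fderiv ℝ u x‖ +
        B / (a * η) * (a * (ζ (‖fderiv ℝ Φ x‖ ^ 2) * ‖fderiv ℝ Φ x‖ ^ 2) -
          ‖w‖ * (ζ (‖fderiv ℝ Φ x‖ ^ 2) * ‖fderiv ℝ Φ x‖)) := by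
      intro x
      have hcs : |∑ i, pd (bs κ i) u x * pd (bs κ i) Φ x| ≤ ‖fderiv ℝ u x‖ * ‖fderiv ℝ Φ x‖ := by
        refine abs_le_of_sq_le_sq ?_ (by positivity)
        rw [mul_pow, norm_fd, norm_fd]
        exact Finset.sum_mul_sq_le_sq_mul_sq _ _ _
      refine hcs.trans ?_
      have hq0 : 0 ≤ ‖fderiv ℝ Φ x‖ := norm_nonneg _
      have hg0 : 0 ≤ ‖fderiv ℝ u x‖ := norm_nonneg _
      have hgB := hdB x
      generalize ‖fderiv ℝ Φ x‖ = q at hq0 ⊢
      generalize ‖fderiv ℝ u x‖ = g at hg0 hgB ⊢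
      have haw : a * (a⁻¹ * ‖w‖) = ‖w‖ := by field_simp
      have haη : 0 < a * η := mul_pos ha hη
      have hst : a * (ζ (q ^ 2) * q ^ 2) - ‖w‖ * (ζ (q ^ 2) * q) = ζ (q ^ 2) * q * (a * q - ‖w‖) := by ring
      rw [hst]
      have hst0 : 0 ≤ ζ (q ^ 2) * q * (a * q - ‖w‖) := by
        rcases le_total q (a⁻¹ * ‖w‖) with h2 | h2
        · rw [hζz _ (pow_le_pow_left₀ hq0 h2 2)]
          simp
        · refine mul_nonneg (mul_nonneg (hζ0 _) hq0) ?_
          have := mul_le_mul_of_nonneg_left h2 ha.le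
          linarith
      rcases le_total q (a⁻¹ * ‖w‖ + η) with h2 | h2
      · have h3 : g * q ≤ (a⁻¹ * ‖w‖ + η) * g := by
          rw [mul_comm]
          exact mul_le_mul_of_nonneg_right h2 hg0
        have h4 : 0 ≤ B / (a * η) * (ζ (q ^ 2) * q * (a * q - ‖w‖)) := by positivity
        linarith
      · rw [hζo _ (pow_le_pow_left₀ (by positivity) h2 2), one_mul]
        have h3 : a * η ≤ a * q - ‖w‖ := by
          have := mul_le_mul_of_nonneg_left h2 ha.le
          rw [mul_add, haw] at this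
          linarith
        have h4 : B * q ≤ B / (a * η) * (q * (a * q - ‖w‖)) := by
          rw [div_mul_eq_mul_div, le_div_iff₀ haη]
          have h5 := mul_le_mul_of_nonneg_left h3 (mul_nonneg hB0 hq0)
          linarith
        have h5 : g * q ≤ B * q := mul_le_mul_of_nonneg_right hgB hq0
        have h6 : 0 ≤ (a⁻¹ * ‖w‖ + η) * g := by positivity
        linarith
    have h2 : |∫ x, (∑ i, pd (bs κ i) u x * pd (bs κ i) Φ x) * Real.exp (-U x)| ≤ (a⁻¹ * ‖w‖ + η) * G +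
        B / (a * η) * (a * (∫ x, ζ (‖fderiv ℝ Φ x‖ ^ 2) * ‖fderiv ℝ Φ x‖ ^ 2 * Real.exp (-U x)) -
          ‖w‖ * ∫ x, ζ (‖fderiv ℝ Φ x‖ ^ 2) * ‖fderiv ℝ Φ x‖ * Real.exp (-U x)) := by
      have k1 : |∫ x, (∑ i, pd (bs κ i) u x * pd (bs κ i) Φ x) * Real.exp (-U x)| ≤
          ∫ x, |(∑ i, pd (bs κ i) u x * pd (bs κ i) Φ x) * Real.exp (-U x)| := abs_integral_le_integral_abs
      have i4 : Integrable fun x => a * (ζ (‖fderiv ℝ Φ x‖ ^ 2) * ‖fderiv ℝ Φ x‖ ^ 2 * Real.exp (-U x)) -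
          ‖w‖ * (ζ (‖fderiv ℝ Φ x‖ ^ 2) * ‖fderiv ℝ Φ x‖ * Real.exp (-U x)) := (i1.const_mul _).sub (i2.const_mul _)
      have k2 : ∫ x, |(∑ i, pd (bs κ i) u x * pd (bs κ i) Φ x) * Real.exp (-U x)| ≤
          ∫ x, ((a⁻¹ * ‖w‖ + η) * (‖fderiv ℝ u x‖ * Real.exp (-U x)) +
            B / (a * η) * (a * (ζ (‖fderiv ℝ Φ x‖ ^ 2) * ‖fderiv ℝ Φ x‖ ^ 2 * Real.exp (-U x)) -
          ‖w‖ * (ζ (‖fderiv ℝ Φ x‖ ^ 2) * ‖fderiv ℝ Φ x‖ * Real.exp (-U x)))) := by
        refine integral_mono i3.abs ((iG.const_mul _).add (i4.const_mul _)) fun x => ?_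
        show |(∑ i, pd (bs κ i) u x * pd (bs κ i) Φ x) * Real.exp (-U x)| ≤
          (a⁻¹ * ‖w‖ + η) * (‖fderiv ℝ u x‖ * Real.exp (-U x)) +
            B / (a * η) * (a * (ζ (‖fderiv ℝ Φ x‖ ^ 2) * ‖fderiv ℝ Φ x‖ ^ 2 * Real.exp (-U x)) -
          ‖w‖ * (ζ (‖fderiv ℝ Φ x‖ ^ 2) * ‖fderiv ℝ Φ x‖ * Real.exp (-U x)))
        rw [abs_mul, abs_of_pos (Real.exp_pos _)]
        have k3 := mul_le_mul_of_nonneg_right (hpt x) (Real.exp_nonneg (-U x))
        linarith
      rw [integral_add (iG.const_mul _) (i4.const_mul _), integral_const_mul, integral_const_mul,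
        integral_sub (i1.const_mul _) (i2.const_mul _), integral_const_mul, integral_const_mul, ← hG] at k2
      exact k1.trans k2
    have h3 : a * (∫ x, ζ (‖fderiv ℝ Φ x‖ ^ 2) * ‖fderiv ℝ Φ x‖ ^ 2 * Real.exp (-U x)) -
          ‖w‖ * (∫ x, ζ (‖fderiv ℝ Φ x‖ ^ 2) * ‖fderiv ℝ Φ x‖ * Real.exp (-U x)) ≤
        (1 + 2 * M) * Real.sqrt (2 + 2 * V) * Real.sqrt ε := by
      have k1 : (1 + 2 * M) * Real.sqrt (∫ x, (R x + Lop (bs κ) U Φ x) ^ 2 * Real.exp (-U x)) *
          Real.sqrt (∫ x, Lop (bs κ) U Φ x ^ 2 * Real.exp (-U x)) ≤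
          (1 + 2 * M) * Real.sqrt ε * Real.sqrt (2 + 2 * V) :=
        mul_le_mul (mul_le_mul_of_nonneg_left hsr (by positivity)) hsL (Real.sqrt_nonneg _) (by positivity)
      linarith
    have h4 : B / (a * η) * (a * (∫ x, ζ (‖fderiv ℝ Φ x‖ ^ 2) * ‖fderiv ℝ Φ x‖ ^ 2 * Real.exp (-U x)) -
          ‖w‖ * ∫ x, ζ (‖fderiv ℝ Φ x‖ ^ 2) * ‖fderiv ℝ Φ x‖ * Real.exp (-U x)) ≤
        B / (a * η) * ((1 + 2 * M) * Real.sqrt (2 + 2 * V) * Real.sqrt ε) :=
      mul_le_mul_of_nonneg_left h3 (by positivity)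
    have h5 : Real.sqrt (∫ x, u x ^ 2 * Real.exp (-U x)) *
        Real.sqrt (∫ x, (R x + Lop (bs κ) U Φ x) ^ 2 * Real.exp (-U x)) ≤
        Real.sqrt (∫ x, u x ^ 2 * Real.exp (-U x)) * Real.sqrt ε :=
      mul_le_mul_of_nonneg_left hsr (Real.sqrt_nonneg _)
    have h6 := abs_add_le (∫ x, u x * (R x + Lop (bs κ) U Φ x) * Real.exp (-U x))
      (∫ x, (∑ i, pd (bs κ i) u x * pd (bs κ i) Φ x) * Real.exp (-U x))
    rw [e3]
    linarith
  have := mul_le_mul_of_nonneg_left hmain hZ.le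
  linarith

end Pool.Agent.Q190.EM
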