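import Pool.Agent.Q86.EM.Stm4
import Pool.Agent.Q275.EM.Ind

/-!
# Project FS (helper86), job FS-INM: induction on the codimension for smooth measures
-/

set_option autoImplicit false

namespace Pool.Agent.Q190.EM

open MeasureTheory Set Filter Topology
open scoped ENNReal InnerProductSpace ContDiff
open Pool.Agent.Q86.FIB (Sp EK spl oo lp)
open Pool.Agent.Q86.EM
open Pool.Agent.Q275.EM (pt_inl pt_inr pm_inl pm_inr pt_isometry pt_comb ix ix_symm_inr ix_symm_zero ix_symm_succ rx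
  rx_apply)

section transport

variable {κ κ' : Type} [Fintype κ] [Fintype κ'] (E : Eu κ ≃ₗᵢ[ℝ] Eu κ')

theorem int_pre (g : Eu κ' → ℝ) : ∫ x, g (E x) = ∫ y, g y := by
  have hp : MeasurePreserving E (volume : Measure (Eu κ)) (volume : Measure (Eu κ')) := E.measurePreserving
  have he : MeasurableEmbedding E := E.toHomeomorph.measurableEmbedding
  exact hp.integral_comp he g

theorem CVm_pre {U : Eu κ' → ℝ} {s : ℝ} (h : CVm U s) : CVm (fun x => U (E x)) s := by
  intro θ
  have h1 := h (E θ)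
  rw [← int_pre E (fun y => Real.exp (-U y)), ← int_pre E (fun y => ⟪E θ, y⟫_ℝ ^ 2 * Real.exp (-U y)),
    ← int_pre E (fun y => ⟪E θ, y⟫_ℝ * Real.exp (-U y)), E.norm_map] at h1
  have h3 : ∀ x, ⟪E θ, E x⟫_ℝ = ⟪θ, x⟫_ℝ := fun x => E.inner_map_map θ x
  simp_rw [h3] at h1
  exact h1

theorem PIm_post {U : Eu κ' → ℝ} {c : ℝ} (h : PIm (fun x => U (E x)) c) : PIm U c := by
  intro f hf hs
  have h1 := h (fun x => f (E x)) (hf.comp E.contDiff) (hs.comp_homeomorph E.toHomeomorph)
  have h2 : ∀ x, ‖fderiv ℝ (fun x => f (E x)) x‖ = ‖fderiv ℝ f (E x)‖ := by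
    intro x
    have h3 : fderiv ℝ (fun x => f (E x)) x = (fderiv ℝ f (E x)).comp (E : Eu κ →L[ℝ] Eu κ') := by
      have h4 := ((hf.differentiable one_ne_zero (E x)).hasFDerivAt).comp x
        ((E : Eu κ →L[ℝ] Eu κ').hasFDerivAt (x := x))
      exact h4.fderiv
    rw [h3]
    exact ContinuousLinearMap.opNorm_comp_linearIsometryEquiv _ _
  simp_rw [h2] at h1
  rw [int_pre E (fun y => Real.exp (-U y)), int_pre E (fun y => f y ^ 2 * Real.exp (-U y)),
    int_pre E (fun y => f y * Real.exp (-U y)), int_pre E (fun y => ‖fderiv ℝ f y‖ ^ 2 * Real.exp (-U y))] at h1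
  exact h1

theorem KLSm_post {U : Eu κ' → ℝ} {k : ℝ} (h : KLSm (fun x => U (E x)) k) : KLSm U k := by
  intro s hs
  exact PIm_post E (h s (CVm_pre E hs))

theorem Pot_pre {U : Eu κ' → ℝ} (h : Pot U) : Pot (fun x => U (E x)) := by
  refine ⟨h.htg.comp (E : Eu κ →L[ℝ] Eu κ').hasTemperateGrowth, ?_, ?_⟩
  · refine ⟨convex_univ, fun x _ y _ a b ha hb hab => ?_⟩
    have h1 := h.conv.2 (mem_univ (E x)) (mem_univ (E y)) ha hb hab
    have h2 : E (a • x + b • y) = a • E x + b • E y := by rw [map_add, map_smul, map_smul]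
    show U (E (a • x + b • y)) ≤ a • U (E x) + b • U (E y)
    rw [h2]
    exact h1
  · have hp : MeasurePreserving E (volume : Measure (Eu κ)) (volume : Measure (Eu κ')) := E.measurePreserving
    exact hp.integrable_comp_of_integrable h.int

end transport

/-- the restriction to a parallel hyperplane -/
theorem Pot_sl {n : ℕ} {U : EK 1 n → ℝ} (h : Pot U) (t : ℝ) : Pot (fun z : Eu (Fin n) => U (pt n t z)) := by
  have haff : ∃ (A : Eu (Fin n) →L[ℝ] EK 1 n) (c : EK 1 n), ∀ z, pt n t z = c + A z := by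
    refine ⟨((spl 1 n).symm : (Sp 1 × Sp n) →L[ℝ] EK 1 n).comp ((ContinuousLinearMap.inr ℝ (Sp 1) (Sp n)).comp
      (lp n : Eu (Fin n) →L[ℝ] Sp n)), (spl 1 n).symm (oo t, 0), fun z => ?_⟩
    show (spl 1 n).symm (oo t, lp n z) = (spl 1 n).symm (oo t, 0) + (spl 1 n).symm (0, lp n z)
    rw [← map_add, Prod.mk_add_mk, add_zero, zero_add]
  obtain ⟨A, c, hA⟩ := haff
  have hcont : Continuous fun z : Eu (Fin n) => pt n t z := (pt_isometry n t).continuous
  have htg : Function.HasTemperateGrowth (fun z : Eu (Fin n) => U (pt n t z)) := by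
    have h1 : Function.HasTemperateGrowth (fun z : Eu (Fin n) => c + A z) :=
      (Function.HasTemperateGrowth.const c).add A.hasTemperateGrowth
    have h2 := h.htg.comp h1
    have h3 : (fun z : Eu (Fin n) => U (pt n t z)) = U ∘ fun z => c + A z := by
      funext z
      show U (pt n t z) = U (c + A z)
      rw [hA]
    rw [h3]
    exact h2
  have hconv : ConvexOn ℝ univ (fun z : Eu (Fin n) => U (pt n t z)) := by
    refine ⟨convex_univ, fun x _ y _ a b ha hb hab => ?_⟩
    have h1 := h.conv.2 (mem_univ (pt n t x)) (mem_univ (pt n t y)) ha hb hab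
    show U (pt n t (a • x + b • y)) ≤ a • U (pt n t x) + b • U (pt n t y)
    rw [pt_comb n t a b hab]
    exact h1
  refine ⟨htg, hconv, ?_⟩
  obtain ⟨k, b, hk, hb⟩ := Pool.Agent.Q86.FIB.linear_growth (volume : Measure (EK 1 n)) h.conv h.htg.1.continuous h.int
  have hlow : ∀ z : Eu (Fin n), k * ‖z‖ - (k * ‖pt n t 0‖ + b) ≤ U (pt n t z) := by
    intro z
    have h1 := hb (pt n t z)
    have h2 : ‖z‖ ≤ ‖pt n t z‖ + ‖pt n t 0‖ := by
      have h3 := (pt_isometry n t).dist_eq z 0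
      rw [dist_zero_right, dist_eq_norm] at h3
      rw [← h3]
      exact norm_sub_le _ _
    have h4 := mul_le_mul_of_nonneg_left h2 hk.le
    linarith
  exact (Pool.Agent.Q86.FIB.RD.exp hk hlow).integrable volume (Real.continuous_exp.comp htg.1.continuous.neg)

theorem inm (h : S_ONM) : S_INM := by
  obtain ⟨C, hC1, hC⟩ := h
  refine ⟨C, hC1, fun m => ?_⟩
  induction m with
  | zero =>
    intro n U hU k hk hs
    rw [pow_zero, one_mul]
    obtain ⟨E, hE⟩ : ∃ E : Eu (Fin n) ≃ₗᵢ[ℝ] Eu (Fin 0 ⊕ Fin n), E = rx (Equiv.emptySum (Fin 0) (Fin n)).symm :=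
      ⟨_, rfl⟩
    have h1 : (fun z : Eu (Fin n) => U (pm 0 n 0 z)) = fun z => U (E z) := by
      funext z
      have h2 : pm 0 n 0 z = E z := by
        ext i
        rcases i with i | i
        · exact i.elim0
        · rw [hE]
          rfl
      rw [h2]
    have h2 := hs 0
    rw [h1] at h2
    exact KLSm_post E h2
  | succ m ih =>
    intro n U hU k hk hs
    obtain ⟨E, hE⟩ : ∃ E : EK 1 (m + n) ≃ₗᵢ[ℝ] Eu (Fin (m + 1) ⊕ Fin n), E = rx (ix m n) := ⟨_, rfl⟩
    obtain ⟨E2, hE2⟩ : ∃ E2 : Eu (Fin m ⊕ Fin n) ≃ₗᵢ[ℝ] Eu (Fin (m + n)), E2 = rx finSumFinEquiv := ⟨_, rfl⟩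
    have hCm : 1 ≤ C ^ m * k := by
      have := one_le_pow₀ (n := m) hC1
      nlinarith
    have key : ∀ (u : ℝ) (t : Eu (Fin m)) (z : Eu (Fin n)),
        E (pt (m + n) u (E2 (pm m n t z))) = pm (m + 1) n (WithLp.toLp 2 (Fin.cons u t)) z := by
      intro u t z
      ext i
      rcases i with i | i
      · refine Fin.cases ?_ (fun i => ?_) i
        · rw [hE, rx_apply, ix_symm_zero, pt_inl, pm_inl]
          rfl
        · rw [hE, rx_apply, ix_symm_succ, pt_inr, hE2, rx_apply, Equiv.symm_apply_apply, pm_inl, pm_inl]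
          rfl
      · rw [hE, rx_apply, ix_symm_inr, pt_inr, hE2, rx_apply, Equiv.symm_apply_apply, pm_inr, pm_inr]
    have h1 : ∀ u : ℝ, KLSm (fun z : Eu (Fin (m + n)) => U (E (pt (m + n) u z))) (C ^ m * k) := by
      intro u
      have h2 : Pot (fun z : Eu (Fin (m + n)) => U (E (pt (m + n) u z))) := Pot_sl (Pot_pre E hU) u
      refine KLSm_post E2 (ih n (fun x => U (E (pt (m + n) u (E2 x)))) (Pot_pre E2 h2) k hk ?_)
      intro t
      have h3 : (fun z : Eu (Fin n) => U (E (pt (m + n) u (E2 (pm m n t z))))) =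
          fun z => U (pm (m + 1) n (WithLp.toLp 2 (Fin.cons u t)) z) := by
        funext z
        rw [key]
      rw [h3]
      exact hs _
    have h4 := hC (m + n) (fun x => U (E x)) (Pot_pre E hU) (C ^ m * k) hCm h1
    have h5 := KLSm_post E h4
    rw [pow_succ, mul_comm (C ^ m) C, mul_assoc]
    exact h5

end Pool.Agent.Q190.EM
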