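import Pool.Agent.Q86.EM.Stm

/-!
# Project EM (helper86), job EM-STA
-/

set_option autoImplicit false

namespace Pool.Agent.Q190.EM

open MeasureTheory Set Filter Topology
open scoped ENNReal InnerProductSpace ContDiff
open Pool.Agent.H888R2.KT (LC pst gs zz gc)
open Pool.Agent.H212R2.KLS (mu Bdd)
open Pool.Agent.Q86.EM

section

variable {κ : Type} [Fintype κ]

theorem int_bdd {m : Measure (Eu κ)} [IsFiniteMeasure m] {f : Eu κ → ℝ} (hf : Continuous f) {B : ℝ}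
    (h : ∀ x, |f x| ≤ B) : Integrable f m :=
  Integrable.of_bound hf.aestronglyMeasurable B (Eventually.of_forall fun x => by
    rw [Real.norm_eq_abs]
    exact h x)

theorem lin3 {m : Measure (Eu κ)} [IsProbabilityMeasure m] {f g : Eu κ → ℝ} (hf : Integrable f m)
    (hg : Integrable g m) (a b c : ℝ) :
    ∫ x, (a + (b * f x + c * g x)) ∂m = a + (b * ∫ x, f x ∂m + c * ∫ x, g x ∂m) := by
  have h1 := integral_add (μ := m) (f := fun _ => a) (g := fun x => b * f x + c * g x) (integrable_const _)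
    ((hf.const_mul b).add (hg.const_mul c))
  have h2 := integral_add (μ := m) (hf.const_mul b) (hg.const_mul c)
  rw [integral_const, probReal_univ, one_smul] at h1
  rw [integral_const_mul, integral_const_mul] at h2
  rw [← h2]
  exact h1

theorem vabs {v : Eu κ → ℝ} (hv : Vc v) (y : Eu κ) : |v y| ≤ 1 := by
  rw [abs_le]
  exact ⟨by linarith [hv.nn y], hv.le y⟩

theorem gs01 (hG : S_GSF) {h : ℝ} (hh : 0 < h) {v : Eu κ → ℝ} (hv : Vc v) :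
    Continuous (gs h v) ∧ (∀ x, 0 ≤ gs h v x) ∧ (∀ x, gs h v x ≤ 1) := by
  obtain ⟨h1, h2, -⟩ := hG κ h hh
  have c0 : ∀ y : Eu κ, |(fun _ => (0 : ℝ) : Eu κ → ℝ) y| ≤ 1 := fun y => by simp
  have c1 : ∀ y : Eu κ, |(fun _ => (1 : ℝ) : Eu κ → ℝ) y| ≤ 1 := fun y => by simp
  refine ⟨(h1 v v hv.cont hv.cont 1 (vabs hv) (vabs hv)).1, fun x => ?_, fun x => ?_⟩
  · have h3 := (h1 (fun _ => 0) v continuous_const hv.cont 1 c0 (vabs hv)).2.2.2.2.2 hv.nn x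
    rwa [h2] at h3
  · have h3 := (h1 v (fun _ => 1) hv.cont continuous_const 1 (vabs hv) c1).2.2.2.2.2 hv.le x
    rwa [h2] at h3

theorem JJ_ge (hG : S_GSF) {ρ : Eu κ → ℝ} (hm : mu ρ univ = 1) {h : ℝ} (hh : 0 < h) {v : Eu κ → ℝ}
    (hv : Vc v) : -1 ≤ JJ h ρ v := by
  obtain ⟨g1, g2, g3⟩ := gs01 hG hh hv
  have hP : IsProbabilityMeasure (mu ρ) := ⟨hm⟩
  have h1 : 0 ≤ ∫ y, v y ^ 2 ∂(ny h ρ) := integral_nonneg fun y => sq_nonneg _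
  have hc : Continuous fun x => Kp (gs h v x) := by
    unfold Kp
    fun_prop
  have h2 : ∫ x, Kp (gs h v x) ∂(mu ρ) ≤ ∫ _, (1 : ℝ) ∂(mu ρ) := by
    refine integral_mono (int_bdd hc (B := 1) fun x => ?_) (integrable_const _) fun x => Kp_le (g2 x) (g3 x)
    rw [abs_le]
    exact ⟨by linarith [Kp_nn (g2 x) (g3 x)], Kp_le (g2 x) (g3 x)⟩
  rw [integral_const, probReal_univ, one_smul] at h2
  unfold JJ
  linarith

/-- the mean of the iterate -/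
theorem mean_step (hF : S_FUB) (hI : S_ITE) (hN : S_INT) {ρ : Eu κ → ℝ} (hρ : LC ρ) (hm : mu ρ univ = 1) {h : ℝ}
    (hh : 0 < h) (hmid : ∀ v : Eu κ → ℝ, Vc v → ∫ y, v y ∂(ny h ρ) = 1 / 2 → 0 ≤ JJ h ρ v)
    {v v₁ : Eu κ → ℝ} (hv : Vc v) (hv1 : v₁ = pst h ρ (fun x => Ps (gs h v x)))
    (hle : ∫ y, v y ∂(ny h ρ) ≤ 1 / 2) {q : ℝ} (hq : q < 0) (hJ : JJ h ρ v ≤ q) :
    Vc v₁ ∧ JJ h ρ v₁ + 1 / 2 * ∫ y, (v₁ y - v y) ^ 2 ∂(ny h ρ) ≤ JJ h ρ v ∧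
      ∫ y, v₁ y ∂(ny h ρ) ≤ 1 / 2 + q / 4 := by
  have hP : IsProbabilityMeasure (ny h ρ) := (hF κ ρ hρ hm h hh).1
  obtain ⟨hV, hS⟩ := hI κ ρ hρ hm h hh v hv
  rw [← hv1] at hV hS
  have hsq : 0 ≤ ∫ y, (v₁ y - v y) ^ 2 ∂(ny h ρ) := integral_nonneg fun y => sq_nonneg _
  have hJt : ∀ t : ℝ, 0 ≤ t → t ≤ 1 → JJ h ρ (fun y => (1 - t) * v y + t * v₁ y) ≤ q := by
    intro t h0 h1
    have h2 := (hS t h0 h1).2
    have h3 : 0 ≤ 1 / 2 * (1 - (1 - t) ^ 2) * ∫ y, (v₁ y - v y) ^ 2 ∂(ny h ρ) :=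
      mul_nonneg (by nlinarith) hsq
    linarith
  have iv : Integrable v (ny h ρ) := int_bdd hv.cont (vabs hv)
  have iv1 : Integrable v₁ (ny h ρ) := int_bdd hV.cont (vabs hV)
  have hmean : ∀ t : ℝ, ∫ y, ((1 - t) * v y + t * v₁ y) ∂(ny h ρ) =
      (1 - t) * ∫ y, v y ∂(ny h ρ) + t * ∫ y, v₁ y ∂(ny h ρ) := by
    intro t
    rw [integral_add (iv.const_mul _) (iv1.const_mul _), integral_const_mul, integral_const_mul]
  have e1 : (fun y => (1 - (1 : ℝ)) * v y + 1 * v₁ y) = v₁ := by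
    funext y
    ring
  have hM0 : ∫ y, v y ∂(ny h ρ) ≤ 1 / 2 + q / 4 := by
    have h1 := hN κ ρ hρ hm h hh hmid v hv hle
    linarith
  have hM1 : ∫ y, v₁ y ∂(ny h ρ) ≤ 1 / 2 := by
    by_contra hc
    push Not at hc
    set M0 := ∫ y, v y ∂(ny h ρ) with hM0d
    set M1 := ∫ y, v₁ y ∂(ny h ρ) with hM1d
    have hd : 0 < M1 - M0 := by linarith
    have ht0 : 0 ≤ (1 / 2 - M0) / (M1 - M0) := div_nonneg (by linarith) hd.le
    have ht1 : (1 / 2 - M0) / (M1 - M0) ≤ 1 := by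
      rw [div_le_one hd]
      linarith
    have h1 := hmean ((1 / 2 - M0) / (M1 - M0))
    have h2 : (1 - (1 / 2 - M0) / (M1 - M0)) * M0 + (1 / 2 - M0) / (M1 - M0) * M1 = 1 / 2 := by
      field_simp
      ring
    rw [h2] at h1
    have h3 := hN κ ρ hρ hm h hh hmid _ (hS _ ht0 ht1).1 h1.le
    have h4 := hJt _ ht0 ht1
    rw [h1] at h3
    linarith
  have hfin := (hS 1 zero_le_one le_rfl).2
  rw [e1] at hfin
  refine ⟨hV, by linarith, ?_⟩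
  have h1 := hN κ ρ hρ hm h hh hmid v₁ hV hM1
  have h2 := hJt 1 zero_le_one le_rfl
  rw [e1] at h2
  linarith

/-- the lower bound by the energy -/
theorem JJ_lower (hF : S_FUB) (hG : S_GSF) {ρ : Eu κ → ℝ} (hρ : LC ρ) (hm : mu ρ univ = 1) {h : ℝ}
    (hh : 0 < h) {P : ℝ} (hP0 : 0 ≤ P) (hP : ∀ f : Eu κ → ℝ, ContDiff ℝ 1 f →
    ∫ x, f x ^ 2 ∂(mu ρ) - (∫ x, f x ∂(mu ρ)) ^ 2 ≤ P * ∫ x, ‖fderiv ℝ f x‖ ^ 2 ∂(mu ρ))
    {v φ : Eu κ → ℝ} (hv : Vc v) (hvC : ContDiff ℝ 1 (gs h v)) (hφc : Continuous φ) (hφ0 : ∀ y, 0 ≤ φ y)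
    {B : ℝ} (hφB : ∀ y, φ y ≤ B)
    (hgr : ∀ x, ‖fderiv ℝ (gs h v) x‖ ≤ gs h φ x)
    (hle : ∫ y, v y ∂(ny h ρ) ≤ 1 / 2) :
    -(2 * P * ∫ y, φ y ^ 2 ∂(ny h ρ)) ≤ JJ h ρ v := by
  have hpr : IsProbabilityMeasure (ny h ρ) := (hF κ ρ hρ hm h hh).1
  have hpm : IsProbabilityMeasure (mu ρ) := ⟨hm⟩
  obtain ⟨g1, g2, g3⟩ := gs01 hG hh hv
  have hone : ∀ y, pst h ρ (fun _ => 1) y = 1 := fun y => Pool.Agent.H888R2.KT.N9ax.pst_one hρ h hh y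
  have hmeanG : ∀ (g : Eu κ → ℝ), Continuous g → ∀ B : ℝ, (∀ y, |g y| ≤ B) →
      ∫ x, gs h g x ∂(mu ρ) = ∫ y, g y ∂(ny h ρ) := by
    intro g hg B hB
    have h1 := ((hF κ ρ hρ hm h hh).2 (fun _ => 1) g continuous_const hg B hB).2
    simpa only [one_mul, hone] using h1
  have hc := hmeanG v hv.cont 1 (vabs hv)
  have hB0 : 0 ≤ B := le_trans (hφ0 0) (hφB 0)
  have hφabs : ∀ y, |φ y| ≤ B := fun y => by rw [abs_of_nonneg (hφ0 y)]; exact hφB y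
  have hφ2c : Continuous fun y => φ y ^ 2 := hφc.pow 2
  have hφ2abs : ∀ y, |φ y ^ 2| ≤ B ^ 2 := fun y => by
    rw [abs_of_nonneg (sq_nonneg _)]
    exact pow_le_pow_left₀ (hφ0 y) (hφB y) 2
  obtain ⟨k1, k2, k3, -⟩ := (hG κ h hh).1 φ φ hφc hφc B hφabs hφabs
  obtain ⟨l1, l2, -⟩ := (hG κ h hh).1 (fun y => φ y ^ 2) (fun y => φ y ^ 2) hφ2c hφ2c (B ^ 2) hφ2abs hφ2abs
  set c := ∫ y, v y ∂(ny h ρ) with hcd
  have hc0 : 0 ≤ c := integral_nonneg hv.nn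
  -- variance
  have hvar : ∫ x, gs h v x ^ 2 ∂(mu ρ) - c ^ 2 ≤ P * ∫ y, φ y ^ 2 ∂(ny h ρ) := by
    have h1 := hP _ hvC
    rw [hc] at h1
    refine h1.trans (mul_le_mul_of_nonneg_left ?_ hP0)
    rw [← hmeanG _ hφ2c _ hφ2abs]
    refine integral_mono_of_nonneg (Eventually.of_forall fun x => sq_nonneg _)
      (int_bdd l1 l2) (Eventually.of_forall fun x => ?_)
    exact (pow_le_pow_left₀ (norm_nonneg _) (hgr x) 2).trans (k3 x)
  have ig : Integrable (gs h v) (mu ρ) := int_bdd g1 (B := 1) fun x => by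
    rw [abs_of_nonneg (g2 x)]
    exact g3 x
  have ig2 : Integrable (fun x => gs h v x ^ 2) (mu ρ) := int_bdd (g1.pow 2) (B := 1) fun x => by
    rw [abs_of_nonneg (sq_nonneg _)]
    exact pow_le_one₀ (g2 x) (g3 x)
  have hK : ∫ x, Kp (gs h v x) ∂(mu ρ) ≤ Kp c + 2 * (∫ x, gs h v x ^ 2 ∂(mu ρ) - c ^ 2) := by
    have hcK : Continuous fun x => Kp (gs h v x) := by
      unfold Kp
      fun_prop
    have i1 : Integrable (fun x => Kp (gs h v x)) (mu ρ) := int_bdd hcK (B := 1) fun x => by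
      rw [abs_le]
      exact ⟨by linarith [Kp_nn (g2 x) (g3 x)], Kp_le (g2 x) (g3 x)⟩
    have h1 : ∫ x, Kp (gs h v x) ∂(mu ρ) ≤
        ∫ x, ((Kp c - Ps c * c + 2 * c ^ 2) + ((Ps c - 4 * c) * gs h v x + 2 * gs h v x ^ 2)) ∂(mu ρ) := by
      refine integral_mono i1 ((integrable_const _).add ((ig.const_mul _).add (ig2.const_mul _))) fun x => ?_
      have h2 := Kp_upper (g2 x) (g3 x) hc0 (hle.trans (by norm_num))
      show Kp (gs h v x) ≤ (Kp c - Ps c * c + 2 * c ^ 2) + ((Ps c - 4 * c) * gs h v x + 2 * gs h v x ^ 2)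
      linarith
    rw [lin3 ig ig2, hc] at h1
    linarith
  have hJ : c ^ 2 ≤ ∫ y, v y ^ 2 ∂(ny h ρ) := by
    have iv : Integrable v (ny h ρ) := int_bdd hv.cont (vabs hv)
    have iv2 : Integrable (fun y => v y ^ 2) (ny h ρ) := int_bdd (hv.cont.pow 2) (B := 1) fun x => by
      rw [abs_of_nonneg (sq_nonneg _)]
      exact pow_le_one₀ (hv.nn x) (hv.le x)
    have h1 : 0 ≤ ∫ y, (c ^ 2 + (-(2 * c) * v y + 1 * v y ^ 2)) ∂(ny h ρ) := by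
      refine integral_nonneg fun y => ?_
      show 0 ≤ c ^ 2 + (-(2 * c) * v y + 1 * v y ^ 2)
      nlinarith [sq_nonneg (v y - c)]
    rw [lin3 iv iv2, ← hcd] at h1
    nlinarith
  have hk := Kp_half hc0 hle
  unfold JJ
  linarith

end

theorem sta (hF : S_FUB) (hG : S_GSF) (hI : S_ITE) (hN : S_INT) (hGI : S_GIN) (hSE : S_SEC) : S_STA := by
  intro κ _ ρ hρ hm h hh θ hθ0 hθ1 hgrad hPex hmid v0 hv0 hle0
  obtain ⟨P, hP0, hP⟩ := hPex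
  by_contra hneg
  push Not at hneg
  let A : Set ℝ := {r | ∃ v : Eu κ → ℝ, Vc v ∧ ∫ y, v y ∂(ny h ρ) ≤ 1 / 2 ∧ JJ h ρ v = r}
  have hAb : BddBelow A := ⟨-1, by
    rintro r ⟨v, hv, -, rfl⟩
    exact JJ_ge hG hm hh hv⟩
  have hAn : A.Nonempty := ⟨_, v0, hv0, hle0, rfl⟩
  set m := sInf A with hmd
  have hmle : ∀ v : Eu κ → ℝ, Vc v → ∫ y, v y ∂(ny h ρ) ≤ 1 / 2 → m ≤ JJ h ρ v := fun v hv hl =>
    csInf_le hAb ⟨v, hv, hl, rfl⟩
  have hm0 : m < 0 := lt_of_le_of_lt (hmle v0 hv0 hle0) hneg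
  have hsh : 0 < Real.sqrt h := Real.sqrt_pos.2 hh
  -- the main inequality
  have key : ∀ t : ℝ, 0 < t → t ^ 4 ≤ -m / 2 → t / Real.sqrt h ≤ -m / 8 →
      -m / 2 ≤ 2 * P * ((2 * (2 / h * Real.sqrt (2 * t ^ 4)) + (2 * t ^ 2 + 4 * t / (h * Real.sqrt h) +
        t ^ 2 / (2 * h ^ 2))) / (1 - θ)) := by
    intro t ht ht4 hts
    have hε : 0 < t ^ 4 := by positivity
    obtain ⟨r, ⟨v, hv, hvl, hvr⟩, hr⟩ := exists_lt_of_csInf_lt hAn (show sInf A < m + t ^ 4 by linarith)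
    have hJv : JJ h ρ v ≤ m + t ^ 4 := by rw [hvr]; exact hr.le
    obtain ⟨v₁, hv₁⟩ : ∃ v₁ : Eu κ → ℝ, v₁ = pst h ρ (fun x => Ps (gs h v x)) := ⟨_, rfl⟩
    obtain ⟨hV1, hJ1, hM1⟩ := mean_step hF hI hN hρ hm hh hmid hv hv₁ hvl (q := m / 2) (by linarith)
      (by linarith)
    obtain ⟨φ, hφ⟩ : ∃ φ : Eu κ → ℝ, φ = (fun y => ‖fderiv ℝ v₁ y‖) := ⟨_, rfl⟩
    obtain ⟨p1, p2, p3, p4, p5⟩ := hGI κ ρ hρ hm h hh θ hθ0 hgrad v v₁ φ hv hv₁ hφ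
    have hφ0 : ∀ y, 0 ≤ φ y := fun y => by rw [hφ]; exact norm_nonneg _
    have hM1' : ∫ y, v₁ y ∂(ny h ρ) ≤ 1 / 2 := by linarith
    have hmv1 := hmle v₁ hV1 hM1'
    have hsq : ∫ y, (v₁ y - v y) ^ 2 ∂(ny h ρ) ≤ 2 * t ^ 4 := by linarith
    have hsq0 : 0 ≤ ∫ y, (v₁ y - v y) ^ 2 ∂(ny h ρ) := integral_nonneg fun y => sq_nonneg _
    have he1 : 2 / h * Real.sqrt (∫ y, (v₁ y - v y) ^ 2 ∂(ny h ρ)) ≤ 2 / h * Real.sqrt (2 * t ^ 4) :=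
      mul_le_mul_of_nonneg_left (Real.sqrt_le_sqrt hsq) (by positivity)
    obtain ⟨a, b, ha, hb, hma, hmb, hab⟩ := hSE κ ρ hρ hm h hh v₁ φ t hV1 p1 hφ0 p2 p3 ht
    have hJa := hmle a ha (by linarith)
    have hJb := hmle b hb (by linarith)
    set F := ∫ y, φ y ^ 2 ∂(ny h ρ) with hFd
    set T := ∫ x, Pd (gs h v₁ x) * (gs h φ x) ^ 2 ∂(mu ρ) with hTd
    have hJ1' : JJ h ρ v₁ ≤ m + t ^ 4 := by linarith
    have h1 : -(2 * t ^ 4) ≤ t ^ 2 * (F - T) + 4 * t ^ 3 / (h * Real.sqrt h) + t ^ 4 / (2 * h ^ 2) := by linarith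
    have h2 : T - F ≤ 2 * t ^ 2 + 4 * t / (h * Real.sqrt h) + t ^ 2 / (2 * h ^ 2) := by
      have h3 : t ^ 2 * (T - F) ≤ t ^ 2 * (2 * t ^ 2 + 4 * t / (h * Real.sqrt h) + t ^ 2 / (2 * h ^ 2)) := by
        have e : t ^ 2 * (2 * t ^ 2 + 4 * t / (h * Real.sqrt h) + t ^ 2 / (2 * h ^ 2)) =
            2 * t ^ 4 + 4 * t ^ 3 / (h * Real.sqrt h) + t ^ 4 / (2 * h ^ 2) := by ring
        rw [e]
        linarith
      exact le_of_mul_le_mul_left h3 (by positivity)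
    obtain ⟨g1, g2, g3⟩ := gs01 hG hh hV1
    have hT0 : 0 ≤ T := integral_nonneg fun x => mul_nonneg (Pd_nn (g2 x) (g3 x)) (sq_nonneg _)
    have hB : ∀ y, φ y ≤ 1 / Real.sqrt h := fun y => by
      rw [le_div_iff₀ hsh]
      have h3 : (φ y * Real.sqrt h) ^ 2 ≤ 1 := by
        rw [mul_pow, Real.sq_sqrt hh.le]
        have := (p2 y).trans (hV1.le y)
        linarith
      nlinarith [mul_nonneg (hφ0 y) hsh.le]
    have hv1C : ContDiff ℝ 1 (gs h v₁) := by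
      have hwc : Continuous fun x => Ps (gs h v x) := by
        have := (gs01 hG hh hv).1
        unfold Ps
        fun_prop
      obtain ⟨q1, B1, q2⟩ := Pool.Agent.H888R2.KT.pst_smooth hρ h hh (fun x => Ps (gs h v x)) hwc
      rw [hv₁]
      exact ((hG κ h hh).2.2 _ (q1.of_le (by norm_num)) B1 (fun y => (q2 y).1) (fun y => (q2 y).2.1)).1
    have hlow := JJ_lower hF hG hρ hm hh hP0 hP hV1 hv1C p1 hφ0 hB p4 hM1'
    rw [← hFd] at hlow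
    have hθ' : 0 < 1 - θ := by linarith
    have hFle : F ≤ (2 * (2 / h * Real.sqrt (2 * t ^ 4)) + (2 * t ^ 2 + 4 * t / (h * Real.sqrt h) +
        t ^ 2 / (2 * h ^ 2))) / (1 - θ) := by
      rw [le_div_iff₀ hθ']
      have he0 : 0 ≤ 2 / h * Real.sqrt (2 * t ^ 4) := by positivity
      have he2 : 0 ≤ 2 * t ^ 2 + 4 * t / (h * Real.sqrt h) + t ^ 2 / (2 * h ^ 2) := by positivity
      generalize 2 / h * Real.sqrt (2 * t ^ 4) = E1 at he0 he1 ⊢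
      generalize 2 * t ^ 2 + 4 * t / (h * Real.sqrt h) + t ^ 2 / (2 * h ^ 2) = E2 at he2 h2 ⊢
      have h6 : (1 - θ) * T ≤ E1 + E2 := by linarith
      have h7 : (1 - θ) * F ≤ (1 - θ) * (θ * T + E1) := mul_le_mul_of_nonneg_left (by linarith) hθ'.le
      have h8 : θ * ((1 - θ) * T) ≤ θ * (E1 + E2) := mul_le_mul_of_nonneg_left h6 hθ0
      nlinarith [mul_nonneg hθ'.le he2]
    have h5 : 2 * P * F ≤ 2 * P * ((2 * (2 / h * Real.sqrt (2 * t ^ 4)) + (2 * t ^ 2 + 4 * t / (h * Real.sqrt h) +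
        t ^ 2 / (2 * h ^ 2))) / (1 - θ)) := mul_le_mul_of_nonneg_left hFle (by positivity)
    linarith
  -- the limit
  have hlim : Tendsto (fun t : ℝ => 2 * P * ((2 * (2 / h * Real.sqrt (2 * t ^ 4)) + (2 * t ^ 2 +
      4 * t / (h * Real.sqrt h) + t ^ 2 / (2 * h ^ 2))) / (1 - θ))) (𝓝[>] 0) (𝓝 0) := by
    have hc : Continuous (fun t : ℝ => 2 * P * ((2 * (2 / h * Real.sqrt (2 * t ^ 4)) + (2 * t ^ 2 +
      4 * t / (h * Real.sqrt h) + t ^ 2 / (2 * h ^ 2))) / (1 - θ))) := by fun_prop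
    have h1 := (hc.tendsto 0).mono_left (nhdsWithin_le_nhds (s := Ioi (0 : ℝ)))
    simpa using h1
  have hev : ∀ᶠ t : ℝ in 𝓝[>] 0, -m / 2 ≤ 2 * P * ((2 * (2 / h * Real.sqrt (2 * t ^ 4)) + (2 * t ^ 2 +
      4 * t / (h * Real.sqrt h) + t ^ 2 / (2 * h ^ 2))) / (1 - θ)) := by
    have e1 : ∀ᶠ t : ℝ in 𝓝[>] 0, t ^ 4 ≤ -m / 2 := by
      have hc : Tendsto (fun t : ℝ => t ^ 4) (𝓝[>] 0) (𝓝 0) := by
        have h1 := ((continuous_pow 4).tendsto (0 : ℝ)).mono_left (nhdsWithin_le_nhds (s := Ioi (0 : ℝ)))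
        simpa using h1
      exact (hc.eventually_lt_const (show (0 : ℝ) < -m / 2 by linarith)).mono fun t h => h.le
    have e2 : ∀ᶠ t : ℝ in 𝓝[>] 0, t / Real.sqrt h ≤ -m / 8 := by
      have hc : Tendsto (fun t : ℝ => t / Real.sqrt h) (𝓝[>] 0) (𝓝 0) := by
        have h1 := ((continuous_id.div_const (Real.sqrt h)).tendsto (0 : ℝ)).mono_left
          (nhdsWithin_le_nhds (s := Ioi (0 : ℝ)))
        simpa using h1
      exact (hc.eventually_lt_const (show (0 : ℝ) < -m / 8 by linarith)).mono fun t h => h.le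
    filter_upwards [e1, e2, self_mem_nhdsWithin] with t h1 h2 h3
    exact key t h3 h1 h2
  have hcon := ge_of_tendsto hlim hev
  linarith

end Pool.Agent.Q190.EM
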