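import Pool.Agent.Q86.EM.Stm
import Pool.Agent.Q86.FIB.MainB1

/-!
# Project EM (helper86), job EM-TRU: the truncation estimate
-/

set_option autoImplicit false
set_option linter.unusedSectionVars false

namespace Pool.Agent.Q190.EM

open MeasureTheory Set Filter Topology
open scoped ENNReal InnerProductSpace ContDiff
open Pool.Agent.Q86.FIB

section gen

variable {E : Type} [NormedAddCommGroup E] [NormedSpace ℝ E] [FiniteDimensional ℝ E]
  [MeasurableSpace E] [BorelSpace E] (μ : Measure E) [μ.IsAddHaarMeasure]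
variable {ι : Type} [Fintype ι] (e : ι → E)

omit [FiniteDimensional ℝ E] [MeasurableSpace E] [BorelSpace E] in
theorem pd_Lop {W Φ : E → ℝ} (hW : ContDiff ℝ ∞ W) (hΦ : ContDiff ℝ ∞ Φ) (i : ι) (x : E) :
    pd (e i) (Lop e W Φ) x = Lop e W (pd (e i) Φ) x - ∑ j, pd (e i) (pd (e j) W) x * pd (e j) Φ x := by
  have h1 : pd (e i) (Lop e W Φ) x = ∑ j, pd (e i) (fun x =>
      pd (e j) (pd (e j) Φ) x - pd (e j) W x * pd (e j) Φ x) x := by
    have := pd_sum Finset.univ (f := fun j x =>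
      pd (e j) (pd (e j) Φ) x - pd (e j) W x * pd (e j) Φ x)
      (fun j _ => sm1 ((pd_smooth (pd_smooth hΦ _) _).sub ((pd_smooth hW _).mul (pd_smooth hΦ _))))
      (e i) x
    exact this
  rw [h1]
  unfold Lop
  rw [← Finset.sum_sub_distrib]
  refine Finset.sum_congr rfl fun j _ => ?_
  rw [pd_sub (sm1 (pd_smooth (pd_smooth hΦ _) _)) (sm1 ((pd_smooth hW _).mul (pd_smooth hΦ _))),
    pd_mul (sm1 (pd_smooth hW _)) (sm1 (pd_smooth hΦ _)),
    pd_comm (sm2 (pd_smooth hΦ (e j))) (e i) (e j)]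
  have h2 : pd (e i) (pd (e j) Φ) = pd (e j) (pd (e i) Φ) := by
    funext y
    exact pd_comm (sm2 hΦ) _ _ y
  rw [h2]
  ring

/-- one summand of the identity -/
theorem ident1 {W Φ r : E → ℝ} (hW : ContDiff ℝ ∞ W) (hΦ : ContDiff ℝ ∞ Φ)
    (hr : ContDiff ℝ 1 r) (wi : ι → ℝ) (hrw : ∀ i x, pd (e i) r x = wi i + pd (e i) (Lop e W Φ) x)
    {ξ : E → ℝ} (hξ : ContDiff ℝ 1 ξ) (hξs : HasCompactSupport ξ) (i : ι) :
    ∫ x, ((∑ j, pd (e j) ξ x * pd (e j) (pd (e i) Φ) x) + ∑ j, pd (e i) (pd (e j) W) x * pd (e j) Φ x * ξ x) *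
      Real.exp (-W x) ∂μ =
    ∫ x, (wi i * ξ x + r x * (pd (e i) ξ x - pd (e i) W x * ξ x)) * Real.exp (-W x) ∂μ := by
  have hw : Continuous (fun x => Real.exp (-W x)) := (hW.neg.exp).continuous
  have hrc := hr.continuous
  have hξc := hξ.continuous
  have hWi : Continuous (pd (e i) W) := (pd_smooth hW _).continuous
  have hξi : ∀ j, Continuous (pd (e j) ξ) := fun j => pd_cont hξ _
  have hΦi : ∀ j, Continuous (pd (e j) Φ) := fun j => (pd_smooth hΦ _).continuous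
  have hΦij : ∀ j, Continuous (pd (e j) (pd (e i) Φ)) := fun j => (pd_smooth (pd_smooth hΦ _) _).continuous
  have hWij : ∀ j, Continuous (pd (e i) (pd (e j) W)) := fun j => (pd_smooth (pd_smooth hW _) _).continuous
  have hL : Continuous (Lop e W (pd (e i) Φ)) := (Lop_smooth e hW (pd_smooth hΦ _)).continuous
  have hA := ibpL μ e (sm1 hW) (sm2 (pd_smooth hΦ (e i))) hξ (Or.inr hξs)
  have hB := int_pd_w μ (hξ.mul hr) (sm1 hW) hξs.mul_right (e i)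
  have c1 : Integrable (fun x => (∑ j, pd (e j) ξ x * pd (e j) (pd (e i) Φ) x) * Real.exp (-W x)) μ :=
    cc_int μ ((continuous_finsetSum _ fun j _ => (hξi j).mul (hΦij j)).mul hw)
      (HasCompactSupport.mul_right (cs_sum _ fun j _ => (pd_supp hξs _).mul_right))
  have c2 : Integrable (fun x => (∑ j, pd (e i) (pd (e j) W) x * pd (e j) Φ x * ξ x) * Real.exp (-W x)) μ :=
    cc_int μ ((continuous_finsetSum _ fun j _ => ((hWij j).mul (hΦi j)).mul hξc).mul hw)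
      (HasCompactSupport.mul_right (cs_sum _ fun j _ => hξs.mul_left))
  have c3 : Integrable (fun x => (wi i * ξ x + r x * (pd (e i) ξ x - pd (e i) W x * ξ x)) * Real.exp (-W x)) μ :=
    cc_int μ (((continuous_const.mul hξc).add (hrc.mul ((hξi i).sub (hWi.mul hξc)))).mul hw)
      (HasCompactSupport.mul_right (hξs.mul_left.add (HasCompactSupport.mul_left ((pd_supp hξs _).sub hξs.mul_left))))
  have c4 : Integrable (fun x => ξ x * Lop e W (pd (e i) Φ) x * Real.exp (-W x)) μ :=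
    cc_int μ ((hξc.mul hL).mul hw) hξs.mul_right.mul_right
  have c5 : Integrable (fun x => ξ x * r x * pd (e i) W x * Real.exp (-W x)) μ :=
    cc_int μ (((hξc.mul hrc).mul hWi).mul hw) hξs.mul_right.mul_right.mul_right
  have e1 : ∀ x, pd (e i) (fun x => ξ x * r x) x * Real.exp (-W x) =
      (((wi i * ξ x + r x * (pd (e i) ξ x - pd (e i) W x * ξ x)) * Real.exp (-W x) +
        ξ x * Lop e W (pd (e i) Φ) x * Real.exp (-W x)) -
        (∑ j, pd (e i) (pd (e j) W) x * pd (e j) Φ x * ξ x) * Real.exp (-W x)) +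
        ξ x * r x * pd (e i) W x * Real.exp (-W x) := by
    intro x
    rw [pd_mul hξ hr, hrw, pd_Lop e hW hΦ, ← Finset.sum_mul]
    ring
  simp_rw [e1] at hB
  have i1 : Integrable (fun x => (wi i * ξ x + r x * (pd (e i) ξ x - pd (e i) W x * ξ x)) * Real.exp (-W x) +
        ξ x * Lop e W (pd (e i) Φ) x * Real.exp (-W x)) μ := c3.add c4
  have i2 : Integrable (fun x => ((wi i * ξ x + r x * (pd (e i) ξ x - pd (e i) W x * ξ x)) * Real.exp (-W x) +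
        ξ x * Lop e W (pd (e i) Φ) x * Real.exp (-W x)) -
        (∑ j, pd (e i) (pd (e j) W) x * pd (e j) Φ x * ξ x) * Real.exp (-W x)) μ := i1.sub c2
  rw [integral_add i2 c5, integral_sub i1 c2, integral_add c3 c4] at hB
  have e2 : ∀ x, ((∑ j, pd (e j) ξ x * pd (e j) (pd (e i) Φ) x) +
      ∑ j, pd (e i) (pd (e j) W) x * pd (e j) Φ x * ξ x) * Real.exp (-W x) =
      (∑ j, pd (e j) ξ x * pd (e j) (pd (e i) Φ) x) * Real.exp (-W x) +
      (∑ j, pd (e i) (pd (e j) W) x * pd (e j) Φ x * ξ x) * Real.exp (-W x) := fun x => add_mul _ _ _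
  simp_rw [e2]
  rw [integral_add c1 c2]
  linarith

/-- the sum -/
theorem ident {W Φ r : E → ℝ} (hW : ContDiff ℝ ∞ W) (hΦ : ContDiff ℝ ∞ Φ)
    (hr : ContDiff ℝ 1 r) (wi : ι → ℝ) (hrw : ∀ i x, pd (e i) r x = wi i + pd (e i) (Lop e W Φ) x)
    {ξ : ι → E → ℝ} (hξ : ∀ i, ContDiff ℝ 1 (ξ i)) (hξs : ∀ i, HasCompactSupport (ξ i)) :
    ∫ x, ((∑ i, ∑ j, pd (e j) (ξ i) x * pd (e j) (pd (e i) Φ) x) +
      ∑ i, ∑ j, pd (e i) (pd (e j) W) x * pd (e j) Φ x * ξ i x) * Real.exp (-W x) ∂μ =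
    ∫ x, ((∑ i, wi i * ξ i x) + r x * (∑ i, (pd (e i) (ξ i) x - pd (e i) W x * ξ i x))) * Real.exp (-W x) ∂μ := by
  have hw : Continuous (fun x => Real.exp (-W x)) := (hW.neg.exp).continuous
  have hrc := hr.continuous
  have hξc : ∀ i, Continuous (ξ i) := fun i => (hξ i).continuous
  have hWi : ∀ i, Continuous (pd (e i) W) := fun i => (pd_smooth hW _).continuous
  have hξi : ∀ i j, Continuous (pd (e j) (ξ i)) := fun i j => pd_cont (hξ i) _
  have hΦi : ∀ j, Continuous (pd (e j) Φ) := fun j => (pd_smooth hΦ _).continuous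
  have hΦij : ∀ i j, Continuous (pd (e j) (pd (e i) Φ)) := fun i j => (pd_smooth (pd_smooth hΦ _) _).continuous
  have hWij : ∀ i j, Continuous (pd (e i) (pd (e j) W)) := fun i j => (pd_smooth (pd_smooth hW _) _).continuous
  have e1 : ∀ x, ((∑ i, ∑ j, pd (e j) (ξ i) x * pd (e j) (pd (e i) Φ) x) +
      ∑ i, ∑ j, pd (e i) (pd (e j) W) x * pd (e j) Φ x * ξ i x) * Real.exp (-W x) =
      ∑ i, ((∑ j, pd (e j) (ξ i) x * pd (e j) (pd (e i) Φ) x) +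
      ∑ j, pd (e i) (pd (e j) W) x * pd (e j) Φ x * ξ i x) * Real.exp (-W x) := fun x => by
    rw [← Finset.sum_add_distrib, Finset.sum_mul]
  have e2 : ∀ x, ((∑ i, wi i * ξ i x) + r x * (∑ i, (pd (e i) (ξ i) x - pd (e i) W x * ξ i x))) * Real.exp (-W x) =
      ∑ i, (wi i * ξ i x + r x * (pd (e i) (ξ i) x - pd (e i) W x * ξ i x)) * Real.exp (-W x) := fun x => by
    rw [Finset.mul_sum, ← Finset.sum_add_distrib, Finset.sum_mul]
  simp_rw [e1, e2]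
  rw [integral_finsetSum _ fun i _ => ?_, integral_finsetSum _ fun i _ => ?_]
  · exact Finset.sum_congr rfl fun i _ => ident1 μ e hW hΦ hr wi hrw (hξ i) (hξs i) i
  · exact cc_int μ (((continuous_const.mul (hξc i)).add (hrc.mul ((hξi i i).sub ((hWi i).mul (hξc i))))).mul hw)
      (HasCompactSupport.mul_right ((hξs i).mul_left.add (HasCompactSupport.mul_left ((pd_supp (hξs i) _).sub (hξs i).mul_left))))
  · exact cc_int μ (((continuous_finsetSum _ fun j _ => (hξi i j).mul (hΦij i j)).add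
      (continuous_finsetSum _ fun j _ => ((hWij i j).mul (hΦi j)).mul (hξc i))).mul hw)
      (HasCompactSupport.mul_right ((cs_sum _ fun j _ => (pd_supp (hξs i) _).mul_right).add
        (cs_sum _ fun j _ => (hξs i).mul_left)))

end gen

section pw

/-- the pointwise bound of the square -/
theorem sq_bound {z z' B M L Q H : ℝ} (hz0 : 0 ≤ z) (hz1 : z ≤ 1) (hz' : 0 ≤ z') (hB : 0 ≤ B)
    (hM : B * z' ≤ M) (hH : 0 ≤ H) (hQ : Q ^ 2 ≤ B ^ 2 * H) :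
    (z * L + 2 * (z' * Q)) ^ 2 ≤ (1 + 2 * M) * (L ^ 2 + 2 * M * H) := by
  have hM0 : 0 ≤ M := le_trans (mul_nonneg hB hz') hM
  set h := Real.sqrt H with hh
  have h0 : 0 ≤ h := Real.sqrt_nonneg _
  have h2 : h ^ 2 = H := Real.sq_sqrt hH
  have hQ' : |Q| ≤ B * h := by
    refine abs_le_of_sq_le_sq ?_ (mul_nonneg hB h0)
    rw [mul_pow, h2]
    exact hQ
  have h3 : |z * L + 2 * (z' * Q)| ≤ |L| + 2 * (M * h) := by
    refine (abs_add_le _ _).trans (add_le_add ?_ ?_)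
    · rw [abs_mul, abs_of_nonneg hz0]
      exact mul_le_of_le_one_left (abs_nonneg _) hz1
    · rw [abs_mul, abs_two, abs_mul, abs_of_nonneg hz']
      have h4 : z' * |Q| ≤ z' * (B * h) := mul_le_mul_of_nonneg_left hQ' hz'
      have h5 : (B * z') * h ≤ M * h := mul_le_mul_of_nonneg_right hM h0
      nlinarith
  have h4 : (z * L + 2 * (z' * Q)) ^ 2 ≤ (|L| + 2 * (M * h)) ^ 2 := by
    rw [← sq_abs]
    exact pow_le_pow_left₀ (abs_nonneg _) h3 2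
  refine h4.trans ?_
  rw [← h2, ← sq_abs L]
  nlinarith [mul_nonneg hM0 (sq_nonneg (|L| - h))]

variable {κ : Type} [Fintype κ] [DecidableEq κ]

open Pool.Agent.Q86.EM

theorem norm_fd (L : Eu κ →L[ℝ] ℝ) : ‖L‖ ^ 2 = ∑ i, (L (bs κ i)) ^ 2 :=
  Pool.Agent.H888R2.KT.N8x.norm_sq_clm L

theorem inner_bs (i j : κ) : ⟪bs κ i, bs κ j⟫_ℝ = if i = j then 1 else 0 := by
  unfold bs
  rw [EuclideanSpace.inner_single_left]
  simp

theorem pd_inner (u v x : Eu κ) : pd v (fun x => ⟪u, x⟫_ℝ) x = ⟪u, v⟫_ℝ := by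
  unfold pd
  have h : (fun x => ⟪u, x⟫_ℝ) = fun x => innerSL ℝ u x := rfl
  rw [h, ContinuousLinearMap.fderiv]
  rfl

theorem pd_sqn (v x : Eu κ) : pd v (fun x => ‖x‖ ^ 2) x = 2 * ⟪v, x⟫_ℝ := by
  unfold pd
  rw [fderiv_norm_sq_apply]
  simp [real_inner_comm]

theorem smooth_sqn : ContDiff ℝ ∞ fun x : Eu κ => ‖x‖ ^ 2 := contDiff_norm_sq ℝ

/-- the Hessian of a strongly convex potential -/
theorem hess_strong {U : Eu κ → ℝ} {a : ℝ} (hU : ContDiff ℝ ∞ U) (hS : SCv U a) (b : κ → ℝ) (x : Eu κ) :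
    a * ∑ i, b i ^ 2 ≤ ∑ i, ∑ j, pd (bs κ i) (pd (bs κ j) U) x * b j * b i := by
  have hW : ContDiff ℝ ∞ (fun x : Eu κ => U x - a / 2 * ‖x‖ ^ 2) := hU.sub (contDiff_const.mul smooth_sqn)
  have h1 := hess_form (ι := κ) (κ := Empty) (sm2 hW) hS (bs κ) (fun _ => 0) b (fun _ => 0) x
  have e1 : ∀ j, pd (bs κ j) (fun x : Eu κ => U x - a / 2 * ‖x‖ ^ 2) = fun x => pd (bs κ j) U x - a * ⟪bs κ j, x⟫_ℝ := by
    intro j
    funext y
    rw [pd_sub (sm1 hU) (sm1 (contDiff_const.mul smooth_sqn)), pd_const_mul (sm1 smooth_sqn), pd_sqn]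
    ring
  have hin : ∀ j, ContDiff ℝ ∞ fun x : Eu κ => ⟪bs κ j, x⟫_ℝ := fun j => contDiff_const.inner ℝ contDiff_id
  have e2 : ∀ i j, pd (bs κ i) (pd (bs κ j) (fun x : Eu κ => U x - a / 2 * ‖x‖ ^ 2)) x =
      pd (bs κ i) (pd (bs κ j) U) x - a * if i = j then 1 else 0 := by
    intro i j
    rw [e1, pd_sub (sm1 (pd_smooth hU _)) (sm1 (contDiff_const.mul (hin j))), pd_const_mul (sm1 (hin j)), pd_inner,
      inner_bs]
    simp [eq_comm]
  simp only [e2, Finset.univ_eq_empty, mul_zero, Finset.sum_const_zero, sub_zero, add_zero] at h1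
  have e3 : ∑ i, ∑ j, (pd (bs κ i) (pd (bs κ j) U) x - a * if i = j then 1 else 0) * b i * b j =
      (∑ i, ∑ j, pd (bs κ i) (pd (bs κ j) U) x * b j * b i) - a * ∑ i, b i ^ 2 := by
    rw [Finset.mul_sum, ← Finset.sum_sub_distrib]
    refine Finset.sum_congr rfl fun i _ => ?_
    have e4 : ∀ j, (pd (bs κ i) (pd (bs κ j) U) x - a * if i = j then 1 else 0) * b i * b j =
        pd (bs κ i) (pd (bs κ j) U) x * b j * b i - (if i = j then a * b i * b j else 0) := by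
      intro j
      split_ifs <;> ring
    simp_rw [e4]
    rw [Finset.sum_sub_distrib, Finset.sum_ite_eq]
    simp only [Finset.mem_univ, if_true]
    ring
  rw [e3] at h1
  linarith

end pw

section main

open Pool.Agent.Q86.EM

variable {κ : Type} [Fintype κ] [DecidableEq κ]

/-- the square of the norm of the gradient -/
noncomputable def Bf (Φ : Eu κ → ℝ) (x : Eu κ) : ℝ := ∑ i, pd (bs κ i) Φ x ^ 2

theorem Bf_eq (Φ : Eu κ → ℝ) (x : Eu κ) : ‖fderiv ℝ Φ x‖ ^ 2 = Bf Φ x := norm_fd _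

theorem Bf_smooth {Φ : Eu κ → ℝ} (hΦ : ContDiff ℝ ∞ Φ) : ContDiff ℝ ∞ (Bf Φ) := by
  unfold Bf
  exact ContDiff.sum fun i _ => (pd_smooth hΦ _).pow 2

theorem pd_Bf {Φ : Eu κ → ℝ} (hΦ : ContDiff ℝ ∞ Φ) (v x : Eu κ) :
    pd v (Bf Φ) x = 2 * ∑ i, pd (bs κ i) Φ x * pd v (pd (bs κ i) Φ) x := by
  have h1 : Bf Φ = fun x => ∑ i, pd (bs κ i) Φ x * pd (bs κ i) Φ x := by
    funext y
    exact Finset.sum_congr rfl fun i _ => pow_two _
  rw [h1, pd_sum Finset.univ (f := fun i x => pd (bs κ i) Φ x * pd (bs κ i) Φ x)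
    (fun i _ => sm1 ((pd_smooth hΦ _).mul (pd_smooth hΦ _))), Finset.mul_sum]
  refine Finset.sum_congr rfl fun i _ => ?_
  rw [pd_mul (sm1 (pd_smooth hΦ _)) (sm1 (pd_smooth hΦ _))]
  ring

/-- the truncated gradient -/
noncomputable def xi (ζ : ℝ → ℝ) (Φ : Eu κ → ℝ) (i : κ) (x : Eu κ) : ℝ := ζ (Bf Φ x) * pd (bs κ i) Φ x

theorem zB_one {ζ : ℝ → ℝ} (hζ : ContDiff ℝ 1 ζ) {Φ : Eu κ → ℝ} (hΦ : ContDiff ℝ ∞ Φ) :
    ContDiff ℝ 1 fun x => ζ (Bf Φ x) := hζ.comp (sm1 (Bf_smooth hΦ))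

theorem xi_one {ζ : ℝ → ℝ} (hζ : ContDiff ℝ 1 ζ) {Φ : Eu κ → ℝ} (hΦ : ContDiff ℝ ∞ Φ) (i : κ) :
    ContDiff ℝ 1 (xi ζ Φ i) := (zB_one hζ hΦ).mul (sm1 (pd_smooth hΦ _))

theorem xi_supp {ζ : ℝ → ℝ} {Φ : Eu κ → ℝ} (hs : HasCompactSupport Φ) (i : κ) :
    HasCompactSupport (xi ζ Φ i) := (pd_supp hs _).mul_left

theorem pd_zB {ζ : ℝ → ℝ} (hζ : ContDiff ℝ 1 ζ) {Φ : Eu κ → ℝ} (hΦ : ContDiff ℝ ∞ Φ) (v x : Eu κ) :
    pd v (fun x => ζ (Bf Φ x)) x = deriv ζ (Bf Φ x) * pd v (Bf Φ) x := by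
  unfold pd
  have h1 : HasDerivAt ζ (deriv ζ (Bf Φ x)) (Bf Φ x) := (hζ.differentiable one_ne_zero _).hasDerivAt
  have h2 := (diff1 (sm1 (Bf_smooth hΦ)) x).hasFDerivAt
  have h3 := (h1.comp_hasFDerivAt x h2).fderiv
  have h4 : (ζ ∘ Bf Φ) = fun x => ζ (Bf Φ x) := rfl
  rw [h4] at h3
  rw [h3]
  rfl

theorem pd_xi {ζ : ℝ → ℝ} (hζ : ContDiff ℝ 1 ζ) {Φ : Eu κ → ℝ} (hΦ : ContDiff ℝ ∞ Φ) (i : κ) (v x : Eu κ) :
    pd v (xi ζ Φ i) x = deriv ζ (Bf Φ x) * (2 * ∑ k, pd (bs κ k) Φ x * pd v (pd (bs κ k) Φ) x) *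
      pd (bs κ i) Φ x + ζ (Bf Φ x) * pd v (pd (bs κ i) Φ) x := by
  have h1 : xi ζ Φ i = fun x => ζ (Bf Φ x) * pd (bs κ i) Φ x := rfl
  rw [h1, pd_mul (zB_one hζ hΦ) (sm1 (pd_smooth hΦ _)), pd_zB hζ hΦ, pd_Bf hΦ]

/-- first sum -/
theorem sum1_nn {ζ : ℝ → ℝ} (hζ : ContDiff ℝ 1 ζ) (hζ0 : ∀ s, 0 ≤ ζ s) (hζd : ∀ s, 0 ≤ deriv ζ s)
    {Φ : Eu κ → ℝ} (hΦ : ContDiff ℝ ∞ Φ) (x : Eu κ) :
    0 ≤ ∑ i, ∑ j, pd (bs κ j) (xi ζ Φ i) x * pd (bs κ j) (pd (bs κ i) Φ) x := by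
  rw [Finset.sum_comm]
  refine Finset.sum_nonneg fun j _ => ?_
  have h1 : ∑ i, pd (bs κ j) (xi ζ Φ i) x * pd (bs κ j) (pd (bs κ i) Φ) x =
      2 * deriv ζ (Bf Φ x) * (∑ k, pd (bs κ k) Φ x * pd (bs κ j) (pd (bs κ k) Φ) x) ^ 2 +
        ζ (Bf Φ x) * ∑ i, pd (bs κ j) (pd (bs κ i) Φ) x ^ 2 := by
    have e1 : ∀ i, pd (bs κ j) (xi ζ Φ i) x * pd (bs κ j) (pd (bs κ i) Φ) x =
        (2 * deriv ζ (Bf Φ x) * ∑ k, pd (bs κ k) Φ x * pd (bs κ j) (pd (bs κ k) Φ) x) *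
          (pd (bs κ i) Φ x * pd (bs κ j) (pd (bs κ i) Φ) x) +
        ζ (Bf Φ x) * pd (bs κ j) (pd (bs κ i) Φ) x ^ 2 := by
      intro i
      rw [pd_xi hζ hΦ]
      ring
    simp_rw [e1]
    rw [Finset.sum_add_distrib, ← Finset.mul_sum, ← Finset.mul_sum]
    ring
  rw [h1]
  exact add_nonneg (mul_nonneg (mul_nonneg zero_le_two (hζd _)) (sq_nonneg _))
    (mul_nonneg (hζ0 _) (Finset.sum_nonneg fun i _ => sq_nonneg _))

/-- second sum -/
theorem sum2_ge {U : Eu κ → ℝ} {a : ℝ} (hU : ContDiff ℝ ∞ U) (hS : SCv U a) {ζ : ℝ → ℝ} (hζ0 : ∀ s, 0 ≤ ζ s)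
    {Φ : Eu κ → ℝ} (x : Eu κ) :
    a * (ζ (Bf Φ x) * Bf Φ x) ≤ ∑ i, ∑ j, pd (bs κ i) (pd (bs κ j) U) x * pd (bs κ j) Φ x * xi ζ Φ i x := by
  have h1 := hess_strong hU hS (fun i => pd (bs κ i) Φ x) x
  have h2 : ∑ i, ∑ j, pd (bs κ i) (pd (bs κ j) U) x * pd (bs κ j) Φ x * xi ζ Φ i x =
      ζ (Bf Φ x) * ∑ i, ∑ j, pd (bs κ i) (pd (bs κ j) U) x * pd (bs κ j) Φ x * pd (bs κ i) Φ x := by
    rw [Finset.mul_sum]
    refine Finset.sum_congr rfl fun i _ => ?_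
    rw [Finset.mul_sum]
    refine Finset.sum_congr rfl fun j _ => ?_
    unfold xi
    ring
  rw [h2]
  have h3 := mul_le_mul_of_nonneg_left h1 (hζ0 (Bf Φ x))
  have h4 : ∑ i, pd (bs κ i) Φ x ^ 2 = Bf Φ x := rfl
  rw [h4] at h3
  linarith

/-- the divergence -/
theorem div_eq {U : Eu κ → ℝ} {ζ : ℝ → ℝ} (hζ : ContDiff ℝ 1 ζ)
    {Φ : Eu κ → ℝ} (hΦ : ContDiff ℝ ∞ Φ) (x : Eu κ) :
    ∑ i, (pd (bs κ i) (xi ζ Φ i) x - pd (bs κ i) U x * xi ζ Φ i x) =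
      ζ (Bf Φ x) * Lop (bs κ) U Φ x + 2 * (deriv ζ (Bf Φ x) *
        ∑ i, ∑ k, pd (bs κ i) Φ x * pd (bs κ k) Φ x * pd (bs κ i) (pd (bs κ k) Φ) x) := by
  unfold Lop
  rw [Finset.mul_sum, Finset.mul_sum, Finset.mul_sum, ← Finset.sum_add_distrib]
  refine Finset.sum_congr rfl fun i _ => ?_
  rw [pd_xi hζ hΦ]
  unfold xi
  have h1 : ∑ k, pd (bs κ i) Φ x * pd (bs κ k) Φ x * pd (bs κ i) (pd (bs κ k) Φ) x =
      pd (bs κ i) Φ x * ∑ k, pd (bs κ k) Φ x * pd (bs κ i) (pd (bs κ k) Φ) x := by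
    rw [Finset.mul_sum]
    exact Finset.sum_congr rfl fun k _ => by ring
  rw [h1]
  ring

theorem quad_sq (Φ : Eu κ → ℝ) (x : Eu κ) :
    (∑ i, ∑ k, pd (bs κ i) Φ x * pd (bs κ k) Φ x * pd (bs κ i) (pd (bs κ k) Φ) x) ^ 2 ≤
      Bf Φ x ^ 2 * ∑ i, ∑ k, pd (bs κ i) (pd (bs κ k) Φ) x ^ 2 := by
  have h1 := Finset.sum_mul_sq_le_sq_mul_sq (Finset.univ : Finset (κ × κ))
    (fun p => pd (bs κ p.1) Φ x * pd (bs κ p.2) Φ x) (fun p => pd (bs κ p.1) (pd (bs κ p.2) Φ) x)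
  rw [Fintype.sum_prod_type, Fintype.sum_prod_type, Fintype.sum_prod_type] at h1
  have h2 : ∑ i, ∑ k, (pd (bs κ i) Φ x * pd (bs κ k) Φ x) ^ 2 = Bf Φ x ^ 2 := by
    unfold Bf
    rw [pow_two, Finset.sum_mul_sum]
    exact Finset.sum_congr rfl fun i _ => Finset.sum_congr rfl fun k _ => by ring
  rw [← h2]
  exact h1

theorem tru : S_TRU := by
  intro κ _ _ U a ha hU hSC ζ M hζ hζ0 hζ1 hζd hζM Φ w c hΦ hs hint
  have hw : Continuous (fun x => Real.exp (-U x)) := (hU.neg.exp).continuous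
  have hLs := Lop_smooth (bs κ) hU hΦ
  have hLc := hLs.continuous
  have hLsup : HasCompactSupport (Lop (bs κ) U Φ) := Lop_supp (bs κ) hs
  have hM0 : 0 ≤ M := by
    have := hζM 0 le_rfl
    rwa [zero_mul] at this
  have hin : ContDiff ℝ ∞ fun x : Eu κ => ⟪w, x⟫_ℝ := contDiff_const.inner ℝ contDiff_id
  obtain ⟨r, hr⟩ : ∃ r : Eu κ → ℝ, r = fun x => ⟪w, x⟫_ℝ - c + Lop (bs κ) U Φ x := ⟨_, rfl⟩
  have hrs : ContDiff ℝ ∞ r := by
    rw [hr]
    exact (hin.sub contDiff_const).add hLs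
  have hrw : ∀ i x, pd (bs κ i) r x = ⟪w, bs κ i⟫_ℝ + pd (bs κ i) (Lop (bs κ) U Φ) x := by
    intro i x
    rw [hr, pd_add (sm1 (hin.sub contDiff_const)) (sm1 hLs), pd_sub (sm1 hin) contDiff_const, pd_inner, pd_const,
      sub_zero]
  have hrx : ∀ x, ⟪w, x⟫_ℝ - c + Lop (bs κ) U Φ x = r x := fun x => by rw [hr]
  simp_rw [hrx] at hint ⊢
  have hid := ident volume (bs κ) hU hΦ (sm1 hrs) (fun i => ⟪w, bs κ i⟫_ℝ) hrw (xi_one hζ hΦ) (xi_supp (ζ := ζ) hs)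
  have hBc : Continuous (Bf Φ) := (Bf_smooth hΦ).continuous
  have hzc : Continuous fun x => ζ (Bf Φ x) := (zB_one hζ hΦ).continuous
  have hgr : HasCompactSupport fun x => ‖fderiv ℝ Φ x‖ := (hs.fderiv (𝕜 := ℝ)).norm
  have hgrc : Continuous fun x => ‖fderiv ℝ Φ x‖ := ((sm1 hΦ).continuous_fderiv one_ne_zero).norm
  have hbc : ∀ i, Continuous (pd (bs κ i) Φ) := fun i => (pd_smooth hΦ _).continuous
  have hξc : ∀ i, Continuous (xi ζ Φ i) := fun i => (xi_one hζ hΦ i).continuous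
  have hξi : ∀ i j, Continuous (pd (bs κ j) (xi ζ Φ i)) := fun i j => pd_cont (xi_one hζ hΦ i) _
  have hΦij : ∀ i j, Continuous (pd (bs κ j) (pd (bs κ i) Φ)) := fun i j => (pd_smooth (pd_smooth hΦ _) _).continuous
  have hUij : ∀ i j, Continuous (pd (bs κ i) (pd (bs κ j) U)) := fun i j => (pd_smooth (pd_smooth hU _) _).continuous
  have hUi : ∀ i, Continuous (pd (bs κ i) U) := fun i => (pd_smooth hU _).continuous
  -- lower bound
  have h1 : a * (∫ x, ζ (Bf Φ x) * Bf Φ x * Real.exp (-U x)) ≤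
      ∫ x, ((∑ i, ∑ j, pd (bs κ j) (xi ζ Φ i) x * pd (bs κ j) (pd (bs κ i) Φ) x) +
      ∑ i, ∑ j, pd (bs κ i) (pd (bs κ j) U) x * pd (bs κ j) Φ x * xi ζ Φ i x) * Real.exp (-U x) := by
    rw [← integral_const_mul]
    have hBs : HasCompactSupport (Bf Φ) := by
      unfold Bf
      exact cs_sum _ fun i _ => by
        simp_rw [pow_two]
        exact (pd_supp hs _).mul_right
    refine integral_mono ((cc_int volume ((hzc.mul hBc).mul hw) (hBs.mul_left.mul_right)).const_mul a)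
      (cc_int volume (((continuous_finsetSum _ fun i _ => continuous_finsetSum _ fun j _ => (hξi i j).mul (hΦij i j)).add
      (continuous_finsetSum _ fun i _ => continuous_finsetSum _ fun j _ => ((hUij i j).mul (hbc j)).mul (hξc i))).mul hw)
      (HasCompactSupport.mul_right ((cs_sum _ fun i _ => cs_sum _ fun j _ => (pd_supp (xi_supp hs i) _).mul_right).add
        (cs_sum _ fun i _ => cs_sum _ fun j _ => (xi_supp hs i).mul_left)))) fun x => ?_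
    have e1 := sum1_nn hζ hζ0 hζd hΦ x
    have e2 := sum2_ge hU hSC hζ0 (Φ := Φ) x
    have e3 := mul_le_mul_of_nonneg_right (show a * (ζ (Bf Φ x) * Bf Φ x) ≤
      (∑ i, ∑ j, pd (bs κ j) (xi ζ Φ i) x * pd (bs κ j) (pd (bs κ i) Φ) x) +
      ∑ i, ∑ j, pd (bs κ i) (pd (bs κ j) U) x * pd (bs κ j) Φ x * xi ζ Φ i x by linarith)
      (Real.exp_nonneg (-U x))
    calc a * (ζ (Bf Φ x) * Bf Φ x * Real.exp (-U x)) = a * (ζ (Bf Φ x) * Bf Φ x) * Real.exp (-U x) := by ring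
      _ ≤ _ := e3
  -- the first term on the right
  have i1 : Integrable (fun x => (∑ i, ⟪w, bs κ i⟫_ℝ * xi ζ Φ i x) * Real.exp (-U x)) :=
    cc_int volume ((continuous_finsetSum _ fun i _ => continuous_const.mul (hξc i)).mul hw)
      (HasCompactSupport.mul_right (cs_sum _ fun i _ => (xi_supp hs i).mul_left))
  have h2 : ∫ x, (∑ i, ⟪w, bs κ i⟫_ℝ * xi ζ Φ i x) * Real.exp (-U x) ≤
      ‖w‖ * ∫ x, ζ (Bf Φ x) * ‖fderiv ℝ Φ x‖ * Real.exp (-U x) := by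
    rw [← integral_const_mul]
    refine integral_mono i1 ((cc_int volume ((hzc.mul hgrc).mul hw) (hgr.mul_left.mul_right)).const_mul _) fun x => ?_
    have e1 : ∑ i, ⟪w, bs κ i⟫_ℝ * xi ζ Φ i x = ζ (Bf Φ x) * fderiv ℝ Φ x w := by
      have e2 : w = ∑ i, ⟪w, bs κ i⟫_ℝ • bs κ i := by
        have h := (EuclideanSpace.basisFun κ ℝ).sum_repr' w
        conv_lhs => rw [← h]
        refine Finset.sum_congr rfl fun i _ => ?_
        rw [EuclideanSpace.basisFun_apply, real_inner_comm]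
        rfl
      conv_rhs => rw [e2, map_sum, Finset.mul_sum]
      refine Finset.sum_congr rfl fun i _ => ?_
      rw [map_smul, smul_eq_mul]
      unfold xi pd
      ring
    have e3 : fderiv ℝ Φ x w ≤ ‖w‖ * ‖fderiv ℝ Φ x‖ := by
      rw [mul_comm]
      exact (le_abs_self _).trans ((fderiv ℝ Φ x).le_opNorm w)
    show (∑ i, ⟪w, bs κ i⟫_ℝ * xi ζ Φ i x) * Real.exp (-U x) ≤ ‖w‖ * (ζ (Bf Φ x) * ‖fderiv ℝ Φ x‖ * Real.exp (-U x))
    rw [e1]
    have e4 := mul_le_mul_of_nonneg_right (mul_le_mul_of_nonneg_left e3 (hζ0 (Bf Φ x))) (Real.exp_nonneg (-U x))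
    linarith
  -- the second term on the right
  obtain ⟨δ, hδ⟩ : ∃ δ : Eu κ → ℝ, δ = fun x => ∑ i, (pd (bs κ i) (xi ζ Φ i) x - pd (bs κ i) U x * xi ζ Φ i x) :=
    ⟨_, rfl⟩
  have hδx : ∀ x, ∑ i, (pd (bs κ i) (xi ζ Φ i) x - pd (bs κ i) U x * xi ζ Φ i x) = δ x := fun x => by rw [hδ]
  have hδc : Continuous δ := by
    rw [hδ]
    exact continuous_finsetSum _ fun i _ => (hξi i i).sub ((hUi i).mul (hξc i))
  have hδs : HasCompactSupport δ := by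
    rw [hδ]
    exact cs_sum _ fun i _ => (pd_supp (xi_supp hs i) _).sub (xi_supp hs i).mul_left
  have i2 : Integrable (fun x => r x * δ x * Real.exp (-U x)) :=
    cc_int volume ((hrs.continuous.mul hδc).mul hw) (hδs.mul_left.mul_right)
  have hHc : Continuous fun x => ∑ i, ∑ j, pd (bs κ j) (pd (bs κ i) Φ) x ^ 2 :=
    continuous_finsetSum _ fun i _ => continuous_finsetSum _ fun j _ => (hΦij i j).pow 2
  have hHs : HasCompactSupport fun x => ∑ i, ∑ j, pd (bs κ j) (pd (bs κ i) Φ) x ^ 2 := by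
    simp_rw [pow_two]
    exact cs_sum _ fun i _ => cs_sum _ fun j _ => (pd_supp (pd_supp hs _) _).mul_right
  have i3 : Integrable fun x => (∑ i, ∑ j, pd (bs κ j) (pd (bs κ i) Φ) x ^ 2) * Real.exp (-U x) :=
    cc_int volume (hHc.mul hw) hHs.mul_right
  have i4 : Integrable fun x => Lop (bs κ) U Φ x ^ 2 * Real.exp (-U x) := by
    simp_rw [pow_two]
    exact cc_int volume ((hLc.mul hLc).mul hw) hLsup.mul_right.mul_right
  have i5 : Integrable fun x => δ x ^ 2 * Real.exp (-U x) := by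
    simp_rw [pow_two]
    exact cc_int volume ((hδc.mul hδc).mul hw) hδs.mul_right.mul_right
  have hSC0 : ∀ x, 0 ≤ ∑ i, ∑ j, pd (bs κ i) (pd (bs κ j) U) x * pd (bs κ i) Φ x * pd (bs κ j) Φ x := by
    intro x
    have e1 := hess_strong hU hSC (fun i => pd (bs κ i) Φ x) x
    have e2 : 0 ≤ a * ∑ i, pd (bs κ i) Φ x ^ 2 := mul_nonneg ha.le (Finset.sum_nonneg fun i _ => sq_nonneg _)
    have e3 : ∑ i, ∑ j, pd (bs κ i) (pd (bs κ j) U) x * pd (bs κ i) Φ x * pd (bs κ j) Φ x =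
        ∑ i, ∑ j, pd (bs κ i) (pd (bs κ j) U) x * pd (bs κ j) Φ x * pd (bs κ i) Φ x :=
      Finset.sum_congr rfl fun i _ => Finset.sum_congr rfl fun j _ => by ring
    rw [e3]
    linarith
  have hboch : ∫ x, (∑ i, ∑ j, pd (bs κ j) (pd (bs κ i) Φ) x ^ 2) * Real.exp (-U x) ≤
      ∫ x, Lop (bs κ) U Φ x ^ 2 * Real.exp (-U x) := by
    rw [bochner volume (bs κ) hU hΦ hs]
    have e1 : 0 ≤ ∫ x, (∑ i, ∑ j, pd (bs κ i) (pd (bs κ j) U) x * pd (bs κ i) Φ x * pd (bs κ j) Φ x) *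
        Real.exp (-U x) := integral_nonneg fun x => mul_nonneg (hSC0 x) (Real.exp_nonneg _)
    linarith
  have hδ2 : ∫ x, δ x ^ 2 * Real.exp (-U x) ≤ (1 + 2 * M) ^ 2 * ∫ x, Lop (bs κ) U Φ x ^ 2 * Real.exp (-U x) := by
    have e1 : ∫ x, δ x ^ 2 * Real.exp (-U x) ≤ ∫ x, ((1 + 2 * M) * (Lop (bs κ) U Φ x ^ 2 * Real.exp (-U x)) +
        (1 + 2 * M) * (2 * M) * ((∑ i, ∑ j, pd (bs κ j) (pd (bs κ i) Φ) x ^ 2) * Real.exp (-U x))) := by
      refine integral_mono i5 ((i4.const_mul _).add (i3.const_mul _)) fun x => ?_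
      have hH0 : 0 ≤ ∑ i, ∑ j, pd (bs κ j) (pd (bs κ i) Φ) x ^ 2 :=
        Finset.sum_nonneg fun i _ => Finset.sum_nonneg fun j _ => sq_nonneg _
      have hB0 : 0 ≤ Bf Φ x := Finset.sum_nonneg fun i _ => sq_nonneg _
      have hq := quad_sq Φ x
      rw [Finset.sum_comm (f := fun i k => pd (bs κ i) (pd (bs κ k) Φ) x ^ 2)] at hq
      have e2 := sq_bound (L := Lop (bs κ) U Φ x) (hζ0 (Bf Φ x)) (hζ1 (Bf Φ x)) (hζd (Bf Φ x)) hB0
        (hζM _ hB0) hH0 hq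
      rw [← div_eq (U := U) hζ hΦ x, hδx] at e2
      have e3 := mul_le_mul_of_nonneg_right e2 (Real.exp_nonneg (-U x))
      show δ x ^ 2 * Real.exp (-U x) ≤ (1 + 2 * M) * (Lop (bs κ) U Φ x ^ 2 * Real.exp (-U x)) +
        (1 + 2 * M) * (2 * M) * ((∑ i, ∑ j, pd (bs κ j) (pd (bs κ i) Φ) x ^ 2) * Real.exp (-U x))
      linarith
    rw [integral_add (i4.const_mul _) (i3.const_mul _), integral_const_mul, integral_const_mul] at e1
    have e4 : (1 + 2 * M) * (2 * M) * ∫ x, (∑ i, ∑ j, pd (bs κ j) (pd (bs κ i) Φ) x ^ 2) * Real.exp (-U x) ≤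
        (1 + 2 * M) * (2 * M) * ∫ x, Lop (bs κ) U Φ x ^ 2 * Real.exp (-U x) :=
      mul_le_mul_of_nonneg_left hboch (by positivity)
    nlinarith
  have h3 : ∫ x, r x * δ x * Real.exp (-U x) ≤ (1 + 2 * M) * Real.sqrt (∫ x, r x ^ 2 * Real.exp (-U x)) *
      Real.sqrt (∫ x, Lop (bs κ) U Φ x ^ 2 * Real.exp (-U x)) := by
    obtain ⟨s, hsd⟩ : ∃ s : Eu κ → ℝ, s = fun x => Real.exp (-(1 / 2 * U x)) := ⟨_, rfl⟩
    have hsc : Continuous s := by
      rw [hsd]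
      exact ((contDiff_const.mul hU).neg.exp).continuous
    have hss : ∀ x, Real.exp (-U x) = s x ^ 2 := by
      intro x
      rw [hsd]
      show Real.exp (-U x) = Real.exp (-(1 / 2 * U x)) ^ 2
      rw [← Real.exp_nat_mul]
      congr 1
      push_cast
      ring
    have e0 : ∀ (g : Eu κ → ℝ) (x : Eu κ), g x ^ 2 * Real.exp (-U x) = (g x * s x) ^ 2 := fun g x => by
      rw [hss]
      ring
    have e1 : ∀ x, r x * δ x * Real.exp (-U x) = (r x * s x) * (δ x * s x) := fun x => by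
      rw [hss]
      ring
    have j1 : Integrable fun x => (r x * s x) ^ 2 := by
      have := hint
      simp_rw [e0 r] at this
      exact this
    have j2 : Integrable fun x => (δ x * s x) ^ 2 := by
      have := i5
      simp_rw [e0 δ] at this
      exact this
    have j3 : Integrable fun x => (r x * s x) * (δ x * s x) := by
      have := i2
      simp_rw [e1] at this
      exact this
    have e2 := cs_abs j1 j2 j3
    simp_rw [← e0 r, ← e0 δ, ← e1] at e2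
    have e3 : Real.sqrt (∫ x, δ x ^ 2 * Real.exp (-U x)) ≤
        (1 + 2 * M) * Real.sqrt (∫ x, Lop (bs κ) U Φ x ^ 2 * Real.exp (-U x)) := by
      have e4 := Real.sqrt_le_sqrt hδ2
      rwa [Real.sqrt_mul (sq_nonneg _), Real.sqrt_sq (by positivity)] at e4
    have e5 := mul_le_mul_of_nonneg_left e3 (Real.sqrt_nonneg (∫ x, r x ^ 2 * Real.exp (-U x)))
    have e6 := le_abs_self (∫ x, r x * δ x * Real.exp (-U x))
    linarith
  have h4 : ∫ x, ((∑ i, ⟪w, bs κ i⟫_ℝ * xi ζ Φ i x) + r x *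
      (∑ i, (pd (bs κ i) (xi ζ Φ i) x - pd (bs κ i) U x * xi ζ Φ i x))) * Real.exp (-U x) =
      (∫ x, (∑ i, ⟪w, bs κ i⟫_ℝ * xi ζ Φ i x) * Real.exp (-U x)) + ∫ x, r x * δ x * Real.exp (-U x) := by
    rw [← integral_add i1 i2]
    refine integral_congr_ae (Eventually.of_forall fun x => ?_)
    simp only
    rw [hδx]
    ring
  rw [h4] at hid
  simp_rw [Bf_eq]
  linarith

end main

end Pool.Agent.Q190.EM
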